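import Mathlib
import Pool.Agent.Lib_helper18.TR.Defs
import Pool.Agent.Lib_helper10.T2F.BAS
import Pool.Agent.Lib_helper10.T2F.PEL
import Pool.Agent.Lib_helper10.T2F.CNT
import Pool.Agent.Lib_helper10.T2F.SLW
import Pool.Agent.Lib_helper10.T2F.SLG
import Pool.Agent.Lib_helper10.T2F.MER
import Pool.Agent.Lib_helper10.T2F.DSR
import Pool.Agent.Lib_helper73.Var.LS

namespace Pool.Agent.TF

open Pool.Agent.T2

theorem i1r_dvd {v : G} (hv : Prm v) (w : G) (hw : (v * w).im = 0) :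
    (nn v : ℤ) ∣ (v * w).re := by
  unfold Prm at hv
  have h1 := Int.gcd_eq_gcd_ab v.re v.im
  rw [hv] at h1
  generalize v.re.gcdA v.im = a at h1
  generalize v.re.gcdB v.im = b at h1
  rw [Zsqrtd.im_mul] at hw
  refine ⟨a * w.re - b * w.im, ?_⟩
  rw [nn_cast, Zsqrtd.re_mul]
  push_cast at h1
  have e1 : w.re = v.re * (a * w.re - b * w.im) := by
    linear_combination w.re * h1 + b * hw
  have e2 : w.im = -v.im * (a * w.re - b * w.im) := by
    linear_combination w.im * h1 + a * hw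
  linear_combination v.re * e1 - v.im * e2

theorem box_count_r_pr {v : G} (hv : Prm v) (σ : ℤ) (hσ : σ = 1 ∨ σ = -1)
    (B x : ℝ) (hB : 0 ≤ B) (hx : 0 ≤ x) (S : Finset G)
    (hS : ∀ z ∈ S, 1 ≤ σ * (v * z).im ∧ ((σ * (v * z).im : ℤ) : ℝ) ≤ B ∧
      0 < (v * z).re ∧ (((v * z).re : ℤ) : ℝ) ≤ x) :
    (S.card : ℝ) ≤ B * (x / nn v + 1) := by
  have hp0 : v ≠ 0 := by
    rintro rfl
    simp [Prm] at hv
  have hnv : 0 < nn v := nn_pos.2 hp0
  have hpp : (0 : ℝ) < nn v := by exact_mod_cast hnv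
  have hpz : (0 : ℤ) < nn v := by exact_mod_cast hnv
  have hmaps : ∀ z ∈ S, ((σ * (v * z).im, (v * z).re / (nn v : ℤ)) : ℤ × ℤ) ∈
      Finset.Icc (1 : ℤ) ⌊B⌋ ×ˢ Finset.Icc (0 : ℤ) ⌊x / nn v⌋ := by
    intro z hz
    obtain ⟨h1, h2, h3, h5⟩ := hS z hz
    simp only [Finset.mem_product, Finset.mem_Icc]
    refine ⟨⟨h1, Int.le_floor.2 h2⟩, Int.ediv_nonneg h3.le hpz.le, ?_⟩
    rw [Int.le_floor, le_div_iff₀ hpp]
    have h6 : (v * z).re / (nn v : ℤ) * (nn v : ℤ) ≤ (v * z).re := Int.ediv_mul_le _ hpz.ne'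
    have h7 : (((v * z).re / (nn v : ℤ) * (nn v : ℤ) : ℤ) : ℝ) ≤ (((v * z).re : ℤ) : ℝ) := by
      exact_mod_cast h6
    rw [Int.cast_mul, Int.cast_natCast] at h7
    exact h7.trans h5
  have hinj : Set.InjOn (fun z : G => ((σ * (v * z).im, (v * z).re / (nn v : ℤ)) : ℤ × ℤ))
      (S : Set G) := by
    intro z _ z' _ h
    simp only [Prod.mk.injEq] at h
    obtain ⟨h1, h2⟩ := h
    have h3 : (v * z).im = (v * z').im := by
      rcases hσ with rfl | rfl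
      · linarith
      · linarith
    have h5 : (nn v : ℤ) ∣ (v * z).re - (v * z').re := by
      have h6 := i1r_dvd hv (z - z') (by rw [mul_sub, Zsqrtd.im_sub, h3, sub_self])
      rwa [mul_sub, Zsqrtd.re_sub] at h6
    have h6 : (v * z).re % (nn v : ℤ) = (v * z').re % (nn v : ℤ) :=
      Int.emod_eq_emod_iff_emod_sub_eq_zero.2 (Int.emod_eq_zero_of_dvd h5)
    have h7 : (v * z).re = (v * z').re := by
      rw [← Int.mul_ediv_add_emod (v * z).re (nn v), ← Int.mul_ediv_add_emod (v * z').re (nn v), h2, h6]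
    have h8 : v * z = v * z' := Zsqrtd.ext h7 h3
    exact mul_left_cancel₀ hp0 h8
  have hc := Finset.card_le_card_of_injOn _ hmaps hinj
  rw [Finset.card_product, Int.card_Icc, Int.card_Icc] at hc
  have hB0 : (0 : ℤ) ≤ ⌊B⌋ := Int.floor_nonneg.2 hB
  have hx0 : (0 : ℤ) ≤ ⌊x / nn v⌋ := Int.floor_nonneg.2 (by positivity)
  have hc2 : (S.card : ℝ) ≤ (((⌊B⌋ + 1 - 1).toNat * (⌊x / nn v⌋ + 1 - 0).toNat : ℕ) : ℝ) := by
    exact_mod_cast hc
  refine hc2.trans ?_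
  rw [Nat.cast_mul]
  have e1 : (((⌊B⌋ + 1 - 1).toNat : ℕ) : ℝ) = (⌊B⌋ : ℝ) := by
    have : (((⌊B⌋ + 1 - 1).toNat : ℕ) : ℤ) = ⌊B⌋ := by
      rw [Int.toNat_of_nonneg (by linarith)]; ring
    exact_mod_cast this
  have e2 : (((⌊x / nn v⌋ + 1 - 0).toNat : ℕ) : ℝ) = (⌊x / nn v⌋ : ℝ) + 1 := by
    have : (((⌊x / nn v⌋ + 1 - 0).toNat : ℕ) : ℤ) = ⌊x / nn v⌋ + 1 := by
      rw [Int.toNat_of_nonneg (by linarith)]; ring
    exact_mod_cast this
  rw [e1, e2]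
  apply mul_le_mul (Int.floor_le B) _ _ hB
  · linarith [Int.floor_le (x / (nn v : ℝ))]
  · have : (0 : ℝ) ≤ (⌊x / nn v⌋ : ℝ) := by exact_mod_cast hx0
    linarith



end Pool.Agent.TF

namespace Pool.Agent.TF

theorem box_count_r : type_of% @box_count_r_pr := @box_count_r_pr

end Pool.Agent.TF
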