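import Mathlib
import Pool.Agent.Lib_helper18.TR.Defs
import Pool.Agent.Lib_helper10.T2F.BAS
import Pool.Agent.Lib_helper10.T2F.PEL
import Pool.Agent.Lib_helper10.T2F.CNT
import Pool.Agent.Lib_helper10.T2F.SLW
import Pool.Agent.Lib_helper10.T2F.SLG
import Pool.Agent.Lib_helper10.T2F.MER
import Pool.Agent.Lib_helper10.T2F.DSR
import Pool.Agent.Lib_helper73.Var.LS
import Pool.Agent.Lib_helper18.TFF.I2
import Pool.Agent.Lib_helper18.TRF.I1

/-! TR, block I3: the trivial bound, and large determinants (rough elements) -/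

namespace Pool.Agent.TF

open Pool.Agent.T2

open Classical in
theorem tr3_mem {R Y : ℝ} {v : G} (hv : v ∈ RE R Y) :
    Prm v ∧ Y < (nn v : ℝ) ∧ (nn v : ℝ) ≤ 2 * Y := by
  unfold RE at hv
  rw [Finset.mem_filter] at hv
  obtain ⟨h1, h2, h3, -⟩ := hv
  exact ⟨h3, h2, by unfold Bl at h1; exact (Finset.mem_filter.1 h1).2.2⟩

theorem tr3_f_re {δ Λ : ℝ} {f : ℝ → ℝ} (hf : Cut δ Λ f) {x : ℝ} (hx : 0 < x) {r : ℤ}
    (h : f ((r : ℝ) / x) ≠ 0) : δ * x ≤ (r : ℝ) ∧ (r : ℝ) ≤ x := by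
  obtain ⟨h1, h2⟩ := hf.supp _ h
  constructor
  · rwa [le_div_iff₀ hx] at h1
  · rwa [div_le_one hx] at h2

theorem tr3_f_abs {δ Λ : ℝ} {f : ℝ → ℝ} (hf : Cut δ Λ f) (t : ℝ) : |f t| ≤ 1 := by
  rw [abs_of_nonneg (hf.nonneg t)]
  exact hf.le_one t

theorem tr3_term {δ Λ : ℝ} {f : ℝ → ℝ} (hf : Cut δ Λ f) {B : ℝ} {c : ℤ → ℝ}
    (hc : Coef B c) (a b : ℤ) (s t : ℝ) : |c a * f s * (c b * f t)| ≤ 4 := by
  rw [abs_mul, abs_mul, abs_mul]
  have h1 := hc.1 a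
  have h2 := hc.1 b
  have h3 := tr3_f_abs hf s
  have h4 := tr3_f_abs hf t
  have h5 : |c a| * |f s| ≤ 2 * 1 :=
    mul_le_mul h1 h3 (abs_nonneg _) (by norm_num)
  have h6 : |c b| * |f t| ≤ 2 * 1 :=
    mul_le_mul h2 h4 (abs_nonneg _) (by norm_num)
  calc |c a| * |f s| * (|c b| * |f t|) ≤ (2 * 1) * (2 * 1) :=
        mul_le_mul h5 h6 (mul_nonneg (abs_nonneg _) (abs_nonneg _)) (by norm_num)
    _ = 4 := by norm_num

theorem pp_trivial_r_pr {δ Λ : ℝ} {f : ℝ → ℝ} (hf : Cut δ Λ f) (hδ : 0 < δ) {σ : ℤ}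
    (hσ : σ = 1 ∨ σ = -1) {x R Y B : ℝ} (hY : 1 ≤ Y) (hYx : Y ≤ x) (hB : 0 ≤ B) {c : ℤ → ℝ}
    (hc : Coef B c) {v w : G} (hv : v ∈ RE R Y) :
    |PP f σ x Y c v w| ≤ 8 * x * B / Y := by
  classical
  obtain ⟨hpp, hpY, hpY2⟩ := tr3_mem hv
  have hx : 0 < x := by linarith
  have hY0 : 0 < Y := by linarith
  have hp0 : (0 : ℝ) < nn v := by linarith
  set T : G → ℝ := fun z => c (σ * (v * z).im) * f (((v * z).re : ℝ) / x) *
    (c (σ * (w * z).im) * f (((w * z).re : ℝ) / x)) with hT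
  set S : Finset G := (Bl (2 * x ^ 2 / Y)).filter (fun z => T z ≠ 0) with hS
  have h1 : PP f σ x Y c v w = ∑ z ∈ S, T z := by
    unfold PP
    rw [hS, Finset.sum_filter_ne_zero]
  have h2 : (S.card : ℝ) ≤ B * (x / nn v + 1) := by
    apply box_count_r hpp σ hσ B x hB hx.le S
    intro z hz
    rw [hS, Finset.mem_filter] at hz
    have hz2 : T z ≠ 0 := hz.2
    rw [hT] at hz2
    dsimp only at hz2
    have hc1 : c (σ * (v * z).im) ≠ 0 := fun h => hz2 (by rw [h, zero_mul, zero_mul])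
    have hf1 : f (((v * z).re : ℝ) / x) ≠ 0 := fun h => hz2 (by rw [h, mul_zero, zero_mul])
    obtain ⟨h3, h4⟩ := hc.2 _ hc1
    obtain ⟨h5, h6⟩ := tr3_f_re hf hx hf1
    refine ⟨h3, h4, ?_, h6⟩
    have h7 : (0 : ℝ) < ((v * z).re : ℝ) := lt_of_lt_of_le (mul_pos hδ hx) h5
    exact_mod_cast h7
  have h3 : B * (x / nn v + 1) ≤ B * (2 * x / Y) := by
    apply mul_le_mul_of_nonneg_left _ hB
    have h4 : x / nn v ≤ x / Y := div_le_div_of_nonneg_left hx.le hY0 hpY.le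
    have h5 : 1 ≤ x / Y := by rwa [le_div_iff₀ hY0, one_mul]
    have h6 : 2 * x / Y = x / Y + x / Y := by ring
    rw [h6]
    linarith
  rw [h1]
  calc |∑ z ∈ S, T z| ≤ ∑ z ∈ S, |T z| := Finset.abs_sum_le_sum_abs _ _
    _ ≤ ∑ _z ∈ S, (4 : ℝ) := Finset.sum_le_sum (fun z _ => tr3_term hf hc _ _ _ _)
    _ = 4 * S.card := by rw [Finset.sum_const, nsmul_eq_mul]; ring
    _ ≤ 4 * (B * (2 * x / Y)) := by linarith
    _ = 8 * x * B / Y := by ring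

theorem pp_far_r_pr {δ Λ : ℝ} {f : ℝ → ℝ} (hf : Cut δ Λ f) (hδ : 0 < δ) {σ : ℤ}
    (hσ : σ = 1 ∨ σ = -1) {x R Y B : ℝ} (hY : 1 ≤ Y) (hYx : Y ≤ x) (hB : 0 ≤ B) {c : ℤ → ℝ}
    (hc : Coef B c) {v w : G} (hv : v ∈ RE R Y) (hw : w ∈ RE R Y)
    (hD : 2 * Y * B / (δ ^ 2 * x) < |(det v w : ℝ)|) :
    PP f σ x Y c v w = 0 := by
  classical
  obtain ⟨hpp, hpY, hpY2⟩ := tr3_mem hv
  have hx : 0 < x := by linarith
  have hY0 : 0 < Y := by linarith
  have hp0 : (0 : ℝ) < nn v := by linarith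
  unfold PP
  apply Finset.sum_eq_zero
  intro z hz
  by_contra hne
  have hc1 : c (σ * (v * z).im) ≠ 0 := fun h => hne (by rw [h, zero_mul, zero_mul])
  have hf1 : f (((v * z).re : ℝ) / x) ≠ 0 := fun h => hne (by rw [h, mul_zero, zero_mul])
  have hc2 : c (σ * (w * z).im) ≠ 0 := fun h => hne (by rw [h, zero_mul, mul_zero])
  have hf2 : f (((w * z).re : ℝ) / x) ≠ 0 := fun h => hne (by rw [h, mul_zero, mul_zero])
  obtain ⟨a1, a2⟩ := hc.2 _ hc1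
  obtain ⟨a3, a4⟩ := hc.2 _ hc2
  obtain ⟨b1, b2⟩ := tr3_f_re hf hx hf1
  obtain ⟨b3, b4⟩ := tr3_f_re hf hx hf2
  have hnd := nn_det v w z
  have hσ2 : σ * σ = 1 := by rcases hσ with h | h <;> rw [h] <;> norm_num
  -- the four reals
  set r : ℝ := ((v * z).re : ℝ) with hr
  set r' : ℝ := ((w * z).re : ℝ) with hr'
  set b : ℝ := ((σ * (v * z).im : ℤ) : ℝ) with hb
  set b' : ℝ := ((σ * (w * z).im : ℤ) : ℝ) with hb'
  have ha1 : (1 : ℝ) ≤ b := by rw [hb]; exact_mod_cast a1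
  have ha3 : (1 : ℝ) ≤ b' := by rw [hb']; exact_mod_cast a3
  have hδx : 0 < δ * x := mul_pos hδ hx
  have hr0 : 0 < r := by linarith
  have hr'0 : 0 < r' := by linarith
  have hnd2 : (nn z : ℝ) * (det v w : ℝ) * (σ : ℝ) = r * b' - b * r' := by
    have h1 : (((nn z : ℤ) * det v w * σ : ℤ) : ℝ) =
        (((v * z).re * (σ * (w * z).im) - (σ * (v * z).im) * (w * z).re : ℤ) : ℝ) := by
      rw [hnd]
      congr 1
      ring
    push_cast at h1
    rw [hr, hr', hb, hb']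
    push_cast
    linarith
  have hσa : |(σ : ℝ)| = 1 := by rcases hσ with h | h <;> rw [h] <;> simp
  have h5 : (nn z : ℝ) * |(det v w : ℝ)| ≤ x * B := by
    have h6 : (nn z : ℝ) * |(det v w : ℝ)| = |r * b' - b * r'| := by
      rw [← hnd2, abs_mul, abs_mul, hσa, Nat.abs_cast, mul_one]
    rw [h6]
    have h7 : r * b' ≤ x * B := mul_le_mul b2 a4 (by linarith) hx.le
    have h8 : b * r' ≤ x * B := by
      rw [mul_comm]
      exact mul_le_mul b4 a2 (by linarith) hx.le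
    have h9 : 0 ≤ r * b' := mul_nonneg hr0.le (by linarith)
    have h10 : 0 ≤ b * r' := mul_nonneg (by linarith) hr'0.le
    rw [abs_le]
    constructor <;> linarith
  have h6 : (δ * x) ^ 2 ≤ 2 * Y * nn z := by
    have h7 : (nn (v * z) : ℝ) = (nn v : ℝ) * nn z := by
      rw [nn_mul]
      push_cast
      ring
    have h8 : (nn (v * z) : ℝ) = r ^ 2 + ((v * z).im : ℝ) ^ 2 := by
      have h := nn_cast (v * z)
      have h2 : ((nn (v * z) : ℤ) : ℝ) =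
        (((v * z).re ^ 2 + (v * z).im ^ 2 : ℤ) : ℝ) := by rw [h]
      push_cast at h2
      rw [hr]
      exact h2
    have h9 : (δ * x) ^ 2 ≤ r ^ 2 := pow_le_pow_left₀ hδx.le b1 2
    have h10 : (nn v : ℝ) * nn z ≤ 2 * Y * nn z :=
      mul_le_mul_of_nonneg_right hpY2 (Nat.cast_nonneg _)
    nlinarith [sq_nonneg ((v * z).im : ℝ)]
  have h7 : 2 * Y * B < |(det v w : ℝ)| * (δ ^ 2 * x) := by
    rwa [div_lt_iff₀ (by positivity)] at hD
  have h8 : (δ * x) ^ 2 * |(det v w : ℝ)| ≤ 2 * Y * (x * B) := by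
    calc (δ * x) ^ 2 * |(det v w : ℝ)|
        ≤ 2 * Y * nn z * |(det v w : ℝ)| :=
          mul_le_mul_of_nonneg_right h6 (abs_nonneg _)
      _ = 2 * Y * (nn z * |(det v w : ℝ)|) := by ring
      _ ≤ 2 * Y * (x * B) := mul_le_mul_of_nonneg_left h5 (by positivity)
  have h9 : 2 * Y * B * x < |(det v w : ℝ)| * (δ ^ 2 * x) * x :=
    mul_lt_mul_of_pos_right h7 hx
  nlinarith







end Pool.Agent.TF

namespace Pool.Agent.TF

theorem pp_trivial_r : type_of% @pp_trivial_r_pr := @pp_trivial_r_pr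
theorem pp_far_r : type_of% @pp_far_r_pr := @pp_far_r_pr

end Pool.Agent.TF
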