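import Mathlib
import Pool.Agent.Lib_helper18.TR.Defs
import Pool.Agent.Lib_helper10.T2F.BAS
import Pool.Agent.Lib_helper10.T2F.PEL
import Pool.Agent.Lib_helper10.T2F.CNT
import Pool.Agent.Lib_helper10.T2F.SLW
import Pool.Agent.Lib_helper10.T2F.SLG
import Pool.Agent.Lib_helper10.T2F.MER
import Pool.Agent.Lib_helper10.T2F.DSR
import Pool.Agent.Lib_helper73.Var.LS
import Pool.Agent.Lib_helper18.TFF.I2

/-!
# Project E2, block I4: the decomposition into products of intervals, rough elements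
-/

namespace Pool.Agent.TF

open Pool.Agent.T2

theorem tr4_mem {R Y : ℝ} {v : G} (h : v ∈ RE R Y) :
    Prm v ∧ Y < (nn v : ℝ) ∧ (nn v : ℝ) ≤ 2 * Y := by
  classical
  unfold RE at h
  have h1 := Finset.mem_filter.1 h
  have h2 := mem_Bl.1 h1.1
  exact ⟨h1.2.2.1, h1.2.1, h2.2⟩

theorem tr4_part (L : ℕ) (hL : 1 ≤ L) (B : ℝ) (hB : 1 ≤ B) (g : ℤ → ℝ) :
    ∑ b ∈ Finset.Icc 1 ⌊B⌋, g b = ∑ i ∈ Finset.range L, ∑ b ∈ Ivl L B i, g b := by
  have hL0 : (0 : ℝ) < L := by exact_mod_cast hL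
  have hB0 : (0 : ℝ) < B := by linarith
  have key : ∀ b ∈ Finset.Icc (1 : ℤ) ⌊B⌋, ∀ i : ℕ, ⌈(b : ℝ) * L / B⌉₊ - 1 = i ↔
      ((i : ℝ) * B / L < (b : ℝ) ∧ (b : ℝ) ≤ ((i : ℝ) + 1) * B / L) := by
    intro b hb i
    rw [Finset.mem_Icc] at hb
    have hb1 : (1 : ℝ) ≤ b := by exact_mod_cast hb.1
    have hpos : 0 < (b : ℝ) * L / B := by positivity
    have hc : 0 < ⌈(b : ℝ) * L / B⌉₊ := Nat.ceil_pos.2 hpos
    have e1 : ⌈(b : ℝ) * L / B⌉₊ - 1 = i ↔ ⌈(b : ℝ) * L / B⌉₊ = i + 1 := by omega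
    rw [e1, Nat.ceil_eq_iff (Nat.succ_ne_zero i)]
    have e2 : ((i + 1 - 1 : ℕ) : ℝ) = (i : ℝ) := by simp
    rw [e2, div_lt_iff₀ hL0, le_div_iff₀ hL0, lt_div_iff₀ hB0, div_le_iff₀ hB0]
    push_cast
    rfl
  rw [← Finset.sum_fiberwise_of_maps_to (g := fun b : ℤ => ⌈(b : ℝ) * L / B⌉₊ - 1)
    (t := Finset.range L)]
  · apply Finset.sum_congr rfl
    intro i _
    apply Finset.sum_congr _ (fun _ _ => rfl)
    unfold Ivl
    apply Finset.filter_congr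
    intro b hb
    exact key b hb i
  · intro b hb
    have hb' := hb
    rw [Finset.mem_Icc] at hb
    have h1 : (b : ℝ) ≤ B := Int.le_floor.1 hb.2
    have h2 := (key b hb' _).1 rfl
    rw [Finset.mem_range]
    by_contra hcon
    have h3 : (L : ℝ) ≤ ((⌈(b : ℝ) * L / B⌉₊ - 1 : ℕ) : ℝ) := by exact_mod_cast not_lt.1 hcon
    have h4 : B ≤ ((⌈(b : ℝ) * L / B⌉₊ - 1 : ℕ) : ℝ) * B / L := by
      rw [le_div_iff₀ hL0]
      nlinarith
    linarith [h2.1]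

theorem tr4_count (D : ℤ) (hD : D ≠ 0) (N : ℤ) (hN : 0 ≤ N) (r : ℤ) :
    (((Finset.Icc 1 N).filter (fun b => D ∣ b - r)).card : ℝ) ≤ (N : ℝ) / |(D : ℝ)| + 1 := by
  have h1 : (Finset.Icc 1 N).filter (fun b => D ∣ b - r) =
      (Finset.Ioc 0 N).filter (fun b => b ≡ r [ZMOD |D|]) := by
    ext b
    simp only [Finset.mem_filter, Finset.mem_Icc, Finset.mem_Ioc]
    have e : D ∣ b - r ↔ b ≡ r [ZMOD |D|] := by
      rw [Int.modEq_comm, Int.modEq_iff_dvd, abs_dvd]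
    rw [e]
    constructor
    · rintro ⟨⟨h1, h2⟩, h3⟩; exact ⟨⟨by omega, h2⟩, h3⟩
    · rintro ⟨⟨h1, h2⟩, h3⟩; exact ⟨⟨by omega, h2⟩, h3⟩
  rw [h1]
  have hD0 : 0 < |D| := abs_pos.2 hD
  have h2 := Int.Ioc_filter_modEq_card 0 N hD0 r
  have hq : (0 : ℚ) < ((|D| : ℤ) : ℚ) := by exact_mod_cast hD0
  have h3 : (((Finset.Ioc 0 N).filter (fun b => b ≡ r [ZMOD |D|])).card : ℚ) ≤
      (N : ℚ) / ((|D| : ℤ) : ℚ) + 1 := by
    have h4 : ((((Finset.Ioc 0 N).filter (fun b => b ≡ r [ZMOD |D|])).card : ℤ) : ℚ) ≤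
      (N : ℚ) / ((|D| : ℤ) : ℚ) + 1 := by
      rw [h2]
      push_cast
      apply max_le
      · have e1 := Int.floor_le (((N : ℚ) - r) / ((|D| : ℤ) : ℚ))
        have e2 := Int.lt_floor_add_one (((0 : ℚ) - r) / ((|D| : ℤ) : ℚ))
        have e3 : ((N : ℚ) - r) / ((|D| : ℤ) : ℚ) =
          (N : ℚ) / ((|D| : ℤ) : ℚ) + ((0 : ℚ) - r) / ((|D| : ℤ) : ℚ) := by ring
        push_cast at e1 e2 e3
        linarith
      · have : (0 : ℚ) ≤ N := by exact_mod_cast hN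
        have hq' : (0 : ℚ) < |(D : ℚ)| := by exact_mod_cast hq
        positivity
    exact_mod_cast h4
  have h5 : (((Finset.Ioc 0 N).filter (fun b => b ≡ r [ZMOD |D|])).card : ℝ) ≤
      (N : ℝ) / ((|D| : ℤ) : ℝ) + 1 := by exact_mod_cast h3
  rw [Int.cast_abs] at h5
  exact h5

theorem tr4_cell {c : ℤ → ℝ} (hc : ∀ b, |c b| ≤ 2) (I : Finset ℤ) (J : ℤ → Finset ℤ)
    (Φ : ℤ → ℤ → ℝ) (Φ₀ E : ℝ) (h0 : 0 ≤ Φ₀) (h1 : Φ₀ ≤ 1)
    (hΦ : ∀ b ∈ I, ∀ b' ∈ J b, |Φ b b' - Φ₀| ≤ E) :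
    |∑ b ∈ I, ∑ b' ∈ J b, c b * c b' * Φ b b'| ≤
      |∑ b ∈ I, ∑ b' ∈ J b, c b * c b'| + ∑ b ∈ I, ∑ _b' ∈ J b, 4 * E := by
  have e : ∑ b ∈ I, ∑ b' ∈ J b, c b * c b' * Φ b b' =
      Φ₀ * ∑ b ∈ I, ∑ b' ∈ J b, c b * c b' +
        ∑ b ∈ I, ∑ b' ∈ J b, c b * c b' * (Φ b b' - Φ₀) := by
    rw [Finset.mul_sum, ← Finset.sum_add_distrib]
    apply Finset.sum_congr rfl
    intro b _
    rw [Finset.mul_sum, ← Finset.sum_add_distrib]
    apply Finset.sum_congr rfl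
    intro b' _
    ring
  rw [e]
  refine (abs_add_le _ _).trans (add_le_add ?_ ?_)
  · rw [abs_mul, abs_of_nonneg h0]
    exact mul_le_of_le_one_left (abs_nonneg _) h1
  · refine (Finset.abs_sum_le_sum_abs _ _).trans (Finset.sum_le_sum ?_)
    intro b hb
    refine (Finset.abs_sum_le_sum_abs _ _).trans (Finset.sum_le_sum ?_)
    intro b' hb'
    have h2 := hΦ b hb b' hb'
    rw [abs_mul, abs_mul]
    have h3 : |c b| * |c b'| ≤ 2 * 2 :=
      mul_le_mul (hc b) (hc b') (abs_nonneg _) (by norm_num)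
    calc |c b| * |c b'| * |Φ b b' - Φ₀| ≤ (2 * 2) * E :=
          mul_le_mul h3 h2 (abs_nonneg _) (by norm_num)
      _ = 4 * E := by ring

theorem tr4_prod {Λ : ℝ} {f : ℝ → ℝ} (hn : ∀ t, 0 ≤ f t) (h1 : ∀ t, f t ≤ 1)
    (hl : ∀ s t, |f s - f t| ≤ Λ * |s - t|) (a a' b b' : ℝ) :
    |f a * f b - f a' * f b'| ≤ Λ * |a - a'| + Λ * |b - b'| := by
  have e : f a * f b - f a' * f b' = (f a - f a') * f b + f a' * (f b - f b') := by ring
  rw [e]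
  refine (abs_add_le _ _).trans ?_
  rw [abs_mul, abs_mul, abs_of_nonneg (hn b), abs_of_nonneg (hn a')]
  have h2 : |f a - f a'| * f b ≤ |f a - f a'| := mul_le_of_le_one_right (abs_nonneg _) (h1 b)
  have h3 : f a' * |f b - f b'| ≤ |f b - f b'| := mul_le_of_le_one_left (abs_nonneg _) (h1 a')
  linarith [hl a a', hl b b']

/-- the bound for the variation of one linear form on a cell -/
theorem tr4_var {x Y B δ₁ L D u w s t s' t' σ : ℝ} (hσ : |σ| = 1) (hx : 0 < x)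
    (hY : 0 < Y) (hB : 0 < B) (hL : 0 < L) (hδ : 0 < δ₁) (hD : δ₁ * (Y * B / x) ≤ |D|)
    (hu : |u| ≤ 2 * Y) (hw : |w| ≤ 2 * Y) (hs : |s - s'| ≤ B / L) (ht : |t - t'| ≤ B / L) :
    |σ * (u * t - w * s) / (D * x) - σ * (u * t' - w * s') / (D * x)| ≤ 4 / (δ₁ * L) := by
  have hD0 : 0 < |D| := lt_of_lt_of_le (by positivity) hD
  have hD1 : D ≠ 0 := abs_pos.1 hD0
  have e : σ * (u * t - w * s) / (D * x) - σ * (u * t' - w * s') / (D * x) =
      σ * (u * (t - t') - w * (s - s')) / (D * x) := by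
    field_simp
    ring
  rw [e, abs_div, abs_mul, hσ, one_mul, abs_mul, abs_of_pos hx, div_le_div_iff₀ (by positivity)
    (by positivity)]
  have h1 : |u * (t - t') - w * (s - s')| ≤ 2 * Y * (B / L) + 2 * Y * (B / L) := by
    refine (abs_sub _ _).trans ?_
    rw [abs_mul, abs_mul]
    have := mul_le_mul hu ht (abs_nonneg _) (by positivity)
    have := mul_le_mul hw hs (abs_nonneg _) (by positivity)
    linarith
  have h2 : δ₁ * (Y * B) ≤ |D| * x := by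
    have : δ₁ * (Y * B / x) * x ≤ |D| * x := mul_le_mul_of_nonneg_right hD hx.le
    have e2 : δ₁ * (Y * B / x) * x = δ₁ * (Y * B) := by field_simp
    linarith
  calc |u * (t - t') - w * (s - s')| * (δ₁ * L)
      ≤ (2 * Y * (B / L) + 2 * Y * (B / L)) * (δ₁ * L) :=
        mul_le_mul_of_nonneg_right h1 (by positivity)
    _ = 4 * (δ₁ * (Y * B)) := by field_simp; ring
    _ ≤ 4 * (|D| * x) := by linarith

theorem tr4_ivl {L : ℕ} {B : ℝ} (hL : 1 ≤ L) (hB : 1 ≤ B) {i : ℕ} {b : ℤ} (hb : b ∈ Ivl L B i) :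
    |(b : ℝ) - ((i : ℝ) + 1) * B / L| ≤ B / L := by
  unfold Ivl at hb
  rw [Finset.mem_filter] at hb
  obtain ⟨-, h1, h2⟩ := hb
  have hL0 : (0 : ℝ) < L := by exact_mod_cast hL
  have e : ((i : ℝ) + 1) * B / L = (i : ℝ) * B / L + B / L := by ring
  rw [abs_le]
  have : 0 < B / L := by positivity
  constructor
  · linarith
  · linarith

open Classical in
/-- the change of variables -/
theorem tr4_bij {δ Λ : ℝ} {f : ℝ → ℝ} (hf : Cut δ Λ f) (hδ : 0 < δ) {σ : ℤ}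
    (hσ : σ = 1 ∨ σ = -1) {x R Y B : ℝ} (hY : 1 ≤ Y) (hYx : Y ≤ x) (hBx : B ≤ x)
    {c : ℤ → ℝ} (hc : Coef B c) {v w : G} (hp : v ∈ RE R Y)
    (hp' : w ∈ RE R Y) (hD : det v w ≠ 0) {κ : ℤ}
    (hκ : ∀ b b' : ℤ, (∃ z : G, (v * z).im = b ∧ (w * z).im = b') ↔
      det v w ∣ b' - κ * b) :
    PP f σ x Y c v w =
      ∑ b ∈ Finset.Icc 1 ⌊B⌋, ∑ b' ∈ (Finset.Icc 1 ⌊B⌋).filter (fun b' =>
        det v w ∣ b' - κ * b), c b * c b' *
        (f (σ * ((nn v : ℝ) * b' - (ip v w : ℝ) * b) /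
            ((det v w : ℝ) * x)) *
          f (σ * ((ip v w : ℝ) * b' - (nn w : ℝ) * b) /
            ((det v w : ℝ) * x))) := by
  obtain ⟨pp, pY, pY2⟩ := tr4_mem hp
  obtain ⟨pp', pY', pY2'⟩ := tr4_mem hp'
  set D := det v w with hDd
  have hx : 0 < x := by linarith
  have hσσ : σ * σ = 1 := by rcases hσ with h | h <;> rw [h] <;> norm_num
  have hDr : (D : ℝ) ≠ 0 := by exact_mod_cast hD
  -- the arguments of `f`
  have ha : ∀ z : G, (σ : ℝ) * ((nn v : ℝ) * ((σ * (w * z).im : ℤ) : ℝ) - (ip v w : ℝ) *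
      ((σ * (v * z).im : ℤ) : ℝ)) / ((D : ℝ) * x) = ((v * z).re : ℝ) / x := by
    intro z
    have h := re_left v w z
    have h' : (D : ℝ) * ((v * z).re : ℝ) =
        (nn v : ℝ) * ((w * z).im : ℝ) - (ip v w : ℝ) * ((v * z).im : ℝ) := by
      exact_mod_cast h
    have hs : (σ : ℝ) * σ = 1 := by exact_mod_cast hσσ
    rw [div_eq_div_iff (mul_ne_zero hDr hx.ne') hx.ne']
    push_cast
    linear_combination (x * ((nn v : ℝ) * ((w * z).im : ℝ) - (ip v w : ℝ) * ((v * z).im : ℝ))) * hs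
      - x * h'
  have ha' : ∀ z : G, (σ : ℝ) * ((ip v w : ℝ) * ((σ * (w * z).im : ℤ) : ℝ) - (nn w : ℝ) *
      ((σ * (v * z).im : ℤ) : ℝ)) / ((D : ℝ) * x) = ((w * z).re : ℝ) / x := by
    intro z
    have h := re_right v w z
    have h' : (D : ℝ) * ((w * z).re : ℝ) =
        (ip v w : ℝ) * ((w * z).im : ℝ) - (nn w : ℝ) * ((v * z).im : ℝ) := by
      exact_mod_cast h
    have hs : (σ : ℝ) * σ = 1 := by exact_mod_cast hσσ
    rw [div_eq_div_iff (mul_ne_zero hDr hx.ne') hx.ne']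
    push_cast
    linear_combination (x * ((ip v w : ℝ) * ((w * z).im : ℝ) - (nn w : ℝ) * ((v * z).im : ℝ))) * hs
      - x * h'
  rw [← Finset.sum_finset_product'
    (((Finset.Icc 1 ⌊B⌋) ×ˢ (Finset.Icc 1 ⌊B⌋)).filter (fun t : ℤ × ℤ => D ∣ t.2 - κ * t.1))
    (Finset.Icc 1 ⌊B⌋) (fun b => (Finset.Icc 1 ⌊B⌋).filter (fun b' => D ∣ b' - κ * b))
    (by
      intro t
      simp only [Finset.mem_filter, Finset.mem_product]
      tauto)]
  unfold PP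
  have hIcc : ∀ b : ℤ, c b ≠ 0 → b ∈ Finset.Icc 1 ⌊B⌋ := by
    intro b hb
    have := hc.2 b hb
    rw [Finset.mem_Icc]
    exact ⟨this.1, Int.le_floor.2 this.2⟩
  refine Finset.sum_bij_ne_zero (fun z _ _ => (σ * (v * z).im, σ * (w * z).im)) ?_ ?_ ?_ ?_
  · intro z _ hz
    have hz' := ne_zero_and_ne_zero_of_mul hz
    have hz1 := ne_zero_and_ne_zero_of_mul hz'.1
    have hz2 := ne_zero_and_ne_zero_of_mul hz'.2
    rw [Finset.mem_filter, Finset.mem_product]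
    refine ⟨⟨hIcc _ hz1.1, hIcc _ hz2.1⟩, ?_⟩
    have h := (hκ (v * z).im (w * z).im).1 ⟨z, rfl, rfl⟩
    have e : σ * (w * z).im - κ * (σ * (v * z).im) = σ * ((w * z).im - κ * (v * z).im) := by ring
    show D ∣ σ * (w * z).im - κ * (σ * (v * z).im)
    rw [e]
    exact Dvd.dvd.mul_left h σ
  · intro z _ _ z' _ _ h
    rw [Prod.mk.injEq] at h
    have hs0 : σ ≠ 0 := by rintro rfl; simp at hσσ
    exact lattice_inj hD (mul_left_cancel₀ hs0 h.1) (mul_left_cancel₀ hs0 h.2)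
  · intro t ht hne
    rw [Finset.mem_filter, Finset.mem_product] at ht
    have hd : D ∣ σ * t.2 - κ * (σ * t.1) := by
      have e : σ * t.2 - κ * (σ * t.1) = σ * (t.2 - κ * t.1) := by ring
      rw [e]
      exact Dvd.dvd.mul_left ht.2 σ
    obtain ⟨z, hz1, hz2⟩ := (hκ (σ * t.1) (σ * t.2)).2 hd
    have e1 : σ * (v * z).im = t.1 := by rw [hz1, ← mul_assoc, hσσ, one_mul]
    have e2 : σ * (w * z).im = t.2 := by rw [hz2, ← mul_assoc, hσσ, one_mul]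
    have hA := ha z
    have hA' := ha' z
    rw [e1, e2] at hA hA'
    rw [hA, hA'] at hne
    have hne1 := ne_zero_and_ne_zero_of_mul hne
    have hnc := ne_zero_and_ne_zero_of_mul hne1.1
    have hnf := ne_zero_and_ne_zero_of_mul hne1.2
    have hct := hc.2 _ hnc.1
    have hre := hf.supp _ hnf.1
    have hmem : z ∈ Bl (2 * x ^ 2 / Y) := by
      rw [mem_Bl]
      constructor
      · rintro rfl
        rw [mul_zero, Zsqrtd.im_zero, mul_zero] at e1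
        rw [← e1] at hct
        omega
      · have hnn : (nn (v * z) : ℝ) = ((v * z).re : ℝ) ^ 2 + ((v * z).im : ℝ) ^ 2 := by
          have := nn_cast (v * z)
          exact_mod_cast this
        have him : ((v * z).im : ℝ) ^ 2 = (t.1 : ℝ) ^ 2 := by
          rw [← e1]
          push_cast
          have hs : (σ : ℝ) * σ = 1 := by exact_mod_cast hσσ
          linear_combination (-((v * z).im : ℝ) ^ 2) * hs
        have h1 : ((v * z).re : ℝ) ≤ x := by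
          have := (div_le_one hx).1 hre.2
          exact this
        have h2 : 0 ≤ ((v * z).re : ℝ) := by
          have h3 : 0 < ((v * z).re : ℝ) / x := lt_of_lt_of_le hδ hre.1
          exact ((div_pos_iff_of_pos_right hx).1 h3).le
        have h3 : (1 : ℝ) ≤ t.1 := by exact_mod_cast hct.1
        have h4 : (t.1 : ℝ) ≤ x := hct.2.trans hBx
        have h5 : (nn (v * z) : ℝ) ≤ 2 * x ^ 2 := by
          rw [hnn, him]
          nlinarith
        rw [nn_mul] at h5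
        push_cast at h5
        rw [le_div_iff₀ (by linarith)]
        have h6 : (0 : ℝ) ≤ nn z := Nat.cast_nonneg _
        nlinarith
    refine ⟨z, hmem, ?_, ?_⟩
    · rw [e1, e2]
      intro h0
      apply hne
      rw [← h0]
      ring
    · rw [e1, e2]
  · intro z _ _
    simp only
    rw [ha z, ha' z]
    ring

theorem tr4_ip_le {u v : G} {X : ℝ} (hu : (nn u : ℝ) ≤ X) (hv : (nn v : ℝ) ≤ X) :
    |(ip u v : ℝ)| ≤ X := by
  have h := ip_sq_add u v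
  have h' : (nn u : ℝ) * nn v = (ip u v : ℝ) ^ 2 + (det u v : ℝ) ^ 2 := by exact_mod_cast h
  have h0 : (0 : ℝ) ≤ nn u := Nat.cast_nonneg _
  have h1 : (0 : ℝ) ≤ nn v := Nat.cast_nonneg _
  have hX : 0 ≤ X := h0.trans hu
  apply abs_le_of_sq_le_sq _ hX
  nlinarith [sq_nonneg (det u v : ℝ), mul_le_mul hu hv h1 hX]

open Classical in
theorem pp_cells_r_pr {δ Λ : ℝ} {f : ℝ → ℝ} (hf : Cut δ Λ f) (hδ : 0 < δ) (hΛ : 0 ≤ Λ) {σ : ℤ}
    (hσ : σ = 1 ∨ σ = -1) {x R Y B δ₁ : ℝ} (hY : 1 ≤ Y) (hYx : Y ≤ x) (hB : 1 ≤ B) (hBx : B ≤ x)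
    (hδ₁ : 0 < δ₁) {c : ℤ → ℝ} (hc : Coef B c) {v w : G} (hv : v ∈ RE R Y)
    (hw : w ∈ RE R Y) (L : ℕ) (hL : 1 ≤ L)
    (h1 : δ₁ * (Y * B / x) ≤ |(det v w : ℝ)|)
    (h2 : |(det v w : ℝ)| ≤ B) : ∃ κ : ℤ, IsCoprime κ (det v w) ∧
    |PP f σ x Y c v w| ≤
      ∑ i ∈ Finset.range L, ∑ i' ∈ Finset.range L,
        |∑ b ∈ Ivl L B i, ∑ b' ∈ (Ivl L B i').filter (fun b' =>
          det v w ∣ b' - κ * b), c b * c b'| +
      64 * Λ * B ^ 2 / (δ₁ * L * |(det v w : ℝ)|) := by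
  obtain ⟨pp, pY, pY2⟩ := tr4_mem hv
  obtain ⟨pp', pY', pY2'⟩ := tr4_mem hw
  have hx : 0 < x := by linarith
  have hY0 : 0 < Y := by linarith
  have hB0 : 0 < B := by linarith
  have hL0 : (0 : ℝ) < L := by exact_mod_cast hL
  have hDpos : 0 < |(det v w : ℝ)| := lt_of_lt_of_le (by positivity) h1
  have hDr : (det v w : ℝ) ≠ 0 := abs_pos.1 hDpos
  have hD : det v w ≠ 0 := by exact_mod_cast hDr
  obtain ⟨κ, hκ1, hκ2⟩ := lattice pp pp' hD
  refine ⟨κ, hκ1, ?_⟩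
  rw [tr4_bij hf hδ hσ hY hYx hBx hc hv hw hD hκ2]
  have hip := tr4_ip_le pY2 pY2'
  set D := det v w with hDd
  set ι := (ip v w : ℝ) with hι
  have hσa : |(σ : ℝ)| = 1 := by rcases hσ with h | h <;> rw [h] <;> simp
  have hp0 : |(nn v : ℝ)| ≤ 2 * Y := by rw [abs_of_nonneg (Nat.cast_nonneg _)]; exact pY2
  have hp0' : |(nn w : ℝ)| ≤ 2 * Y := by rw [abs_of_nonneg (Nat.cast_nonneg _)]; exact pY2'
  set Φ : ℝ → ℝ → ℝ := fun s t => f ((σ : ℝ) * ((nn v : ℝ) * t - ι * s) / ((D : ℝ) * x)) *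
    f ((σ : ℝ) * (ι * t - (nn w : ℝ) * s) / ((D : ℝ) * x)) with hΦ
  set E : ℝ := 8 * Λ / (δ₁ * L) with hE
  have hE0 : 0 ≤ E := by positivity
  have hvar : ∀ i i' : ℕ, ∀ b ∈ Ivl L B i, ∀ b' ∈ Ivl L B i',
      |Φ b b' - Φ (((i : ℝ) + 1) * B / L) (((i' : ℝ) + 1) * B / L)| ≤ E := by
    intro i i' b hb b' hb'
    have hb1 := tr4_ivl hL hB hb
    have hb2 := tr4_ivl hL hB hb'
    have g1 := tr4_var (σ := (σ : ℝ)) (u := (nn v : ℝ)) (w := ι) hσa hx hY0 hB0 hL0 hδ₁ h1 hp0 hip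
      hb1 hb2
    have g2 := tr4_var (σ := (σ : ℝ)) (u := ι) (w := (nn w : ℝ)) hσa hx hY0 hB0 hL0 hδ₁ h1 hip hp0'
      hb1 hb2
    refine (tr4_prod hf.nonneg hf.le_one hf.lip _ _ _ _).trans ?_
    have e : E = Λ * (4 / (δ₁ * L)) + Λ * (4 / (δ₁ * L)) := by rw [hE]; ring
    rw [e]
    exact add_le_add (mul_le_mul_of_nonneg_left g1 hΛ) (mul_le_mul_of_nonneg_left g2 hΛ)
  have hcell : ∀ i i' : ℕ, |∑ b ∈ Ivl L B i, ∑ b' ∈ (Ivl L B i').filter (fun b' =>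
      D ∣ b' - κ * b), c b * c b' * Φ b b'| ≤
      |∑ b ∈ Ivl L B i, ∑ b' ∈ (Ivl L B i').filter (fun b' => D ∣ b' - κ * b), c b * c b'| +
      ∑ b ∈ Ivl L B i, ∑ _b' ∈ (Ivl L B i').filter (fun b' => D ∣ b' - κ * b), 4 * E := by
    intro i i'
    refine tr4_cell hc.1 (Ivl L B i) (fun b => (Ivl L B i').filter (fun b' => D ∣ b' - κ * b))
      (fun b b' => Φ b b') (Φ (((i : ℝ) + 1) * B / L) (((i' : ℝ) + 1) * B / L)) E ?_ ?_ ?_
    · exact mul_nonneg (hf.nonneg _) (hf.nonneg _)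
    · exact mul_le_one₀ (hf.le_one _) (hf.nonneg _) (hf.le_one _)
    · intro b hb b' hb'
      exact hvar i i' b hb b' (Finset.mem_filter.1 hb').1
  -- splitting into cells
  have hsplit : ∀ g : ℤ → ℤ → ℝ, ∑ b ∈ Finset.Icc 1 ⌊B⌋, ∑ b' ∈ (Finset.Icc 1 ⌊B⌋).filter
      (fun b' => D ∣ b' - κ * b), g b b' =
      ∑ i ∈ Finset.range L, ∑ i' ∈ Finset.range L, ∑ b ∈ Ivl L B i,
        ∑ b' ∈ (Ivl L B i').filter (fun b' => D ∣ b' - κ * b), g b b' := by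
    intro g
    rw [tr4_part L hL B hB]
    apply Finset.sum_congr rfl
    intro i _
    rw [Finset.sum_comm]
    apply Finset.sum_congr rfl
    intro b _
    rw [Finset.sum_filter, tr4_part L hL B hB]
    apply Finset.sum_congr rfl
    intro i' _
    rw [Finset.sum_filter]
  have hcount : ∑ b ∈ Finset.Icc 1 ⌊B⌋, ∑ _b' ∈ (Finset.Icc 1 ⌊B⌋).filter
      (fun b' => D ∣ b' - κ * b), 4 * E ≤ 64 * Λ * B ^ 2 / (δ₁ * L * |(D : ℝ)|) := by
    have hfl : (0 : ℤ) ≤ ⌊B⌋ := Int.floor_nonneg.2 hB0.le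
    have hfl1 : (⌊B⌋ : ℝ) ≤ B := Int.floor_le B
    have hb : ∀ b ∈ Finset.Icc (1 : ℤ) ⌊B⌋, ∑ _b' ∈ (Finset.Icc 1 ⌊B⌋).filter
        (fun b' => D ∣ b' - κ * b), 4 * E ≤ (2 * B / |(D : ℝ)|) * (4 * E) := by
      intro b _
      rw [Finset.sum_const, nsmul_eq_mul]
      apply mul_le_mul_of_nonneg_right _ (by positivity)
      refine (tr4_count D hD ⌊B⌋ hfl (κ * b)).trans ?_
      have e1 : (⌊B⌋ : ℝ) / |(D : ℝ)| ≤ B / |(D : ℝ)| := div_le_div_of_nonneg_right hfl1 hDpos.le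
      have e2 : 1 ≤ B / |(D : ℝ)| := (one_le_div hDpos).2 h2
      have e3 : 2 * B / |(D : ℝ)| = B / |(D : ℝ)| + B / |(D : ℝ)| := by ring
      linarith
    refine (Finset.sum_le_sum hb).trans ?_
    rw [Finset.sum_const, nsmul_eq_mul]
    have hcard : ((Finset.Icc (1 : ℤ) ⌊B⌋).card : ℝ) ≤ B := by
      rw [Int.card_Icc]
      have : (((⌊B⌋ + 1 - 1).toNat : ℕ) : ℝ) = ((⌊B⌋ : ℤ) : ℝ) := by
        have e : ((⌊B⌋ + 1 - 1).toNat : ℤ) = ⌊B⌋ := by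
          rw [Int.toNat_of_nonneg (by omega)]; ring
        exact_mod_cast e
      rw [this]
      exact hfl1
    refine (mul_le_mul_of_nonneg_right hcard (by positivity)).trans (le_of_eq ?_)
    rw [hE]
    field_simp
    ring
  have hΦ2 : ∑ b ∈ Finset.Icc 1 ⌊B⌋, ∑ b' ∈ (Finset.Icc 1 ⌊B⌋).filter (fun b' =>
        D ∣ b' - κ * b), c b * c b' *
        (f (σ * ((nn v : ℝ) * b' - ι * b) / ((D : ℝ) * x)) *
          f (σ * (ι * b' - (nn w : ℝ) * b) / ((D : ℝ) * x))) =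
      ∑ i ∈ Finset.range L, ∑ i' ∈ Finset.range L, ∑ b ∈ Ivl L B i,
        ∑ b' ∈ (Ivl L B i').filter (fun b' => D ∣ b' - κ * b), c b * c b' * Φ b b' :=
    hsplit (fun b b' => c b * c b' * Φ b b')
  rw [hΦ2]
  refine (Finset.abs_sum_le_sum_abs _ _).trans ?_
  refine (Finset.sum_le_sum (fun i _ => Finset.abs_sum_le_sum_abs _ _)).trans ?_
  refine (Finset.sum_le_sum (fun i _ => Finset.sum_le_sum (fun i' _ => hcell i i'))).trans ?_
  simp only [Finset.sum_add_distrib]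
  rw [← hsplit (fun _ _ => 4 * E)]
  linarith





end Pool.Agent.TF

namespace Pool.Agent.TF

theorem pp_cells_r : type_of% @pp_cells_r_pr := @pp_cells_r_pr

end Pool.Agent.TF
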