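import Mathlib
import Pool.Agent.Lib_helper18.TR.Defs
import Pool.Agent.Lib_helper10.T2F.BAS
import Pool.Agent.Lib_helper10.T2F.PEL
import Pool.Agent.Lib_helper10.T2F.CNT
import Pool.Agent.Lib_helper10.T2F.SLW
import Pool.Agent.Lib_helper10.T2F.SLG
import Pool.Agent.Lib_helper10.T2F.MER
import Pool.Agent.Lib_helper10.T2F.DSR
import Pool.Agent.Lib_helper73.Var.LS
import Pool.Agent.Lib_helper18.TFF.P1
import Pool.Agent.Lib_helper18.TFF.P8
import Pool.Agent.Lib_helper18.TRF.P7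

namespace Pool.Agent.TF

open Pool.Agent.T2

open Classical in
theorem trp9_mem {R Y : ℝ} {u : G} (h : u ∈ RE R Y) :
    Y < (nn u : ℝ) ∧ (nn u : ℝ) ≤ 2 * Y ∧ Prm u ∧ 0 < u.im ∧ u.im < u.re ∧
      ∀ p : ℕ, p.Prime → p ∣ nn u → R < (p : ℝ) := by
  unfold RE at h
  obtain ⟨h1, h2, h3, h4, h5, h6⟩ := Finset.mem_filter.1 h
  exact ⟨h2, (mem_Bl.1 h1).2, h3, h4, h5, h6⟩

theorem trp9_nn (k h : ℕ) : nn (vec k h) = k ^ 2 + h ^ 2 := by
  have h1 := nn_cast (vec k h)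
  have h2 : ((nn (vec k h) : ℕ) : ℤ) = ((k ^ 2 + h ^ 2 : ℕ) : ℤ) := by
    rw [h1]; simp [vec]
  exact_mod_cast h2

theorem trp9_prm {k h : ℕ} (hkh : Nat.Coprime k h) : Prm (vec k h) := by
  unfold Prm vec
  simpa [Int.gcd_natCast_natCast] using hkh

theorem trp9_ip (w e : G) : |(ip w e : ℝ)| ≤ Real.sqrt (nn w) * Real.sqrt (nn e) := by
  rw [← Real.sqrt_mul (Nat.cast_nonneg _)]
  apply Real.abs_le_sqrt
  have h := ip_sq_add w e
  have h2 : (nn w : ℝ) * nn e = (ip w e : ℝ) ^ 2 + (det w e : ℝ) ^ 2 := by exact_mod_cast h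
  rw [h2]
  nlinarith [sq_nonneg (det w e : ℝ)]

theorem trp9_ksq {Y D : ℝ} (hY : 1 ≤ Y) (hD1 : 1 ≤ D) {k : ℕ}
    (hkN : k ≤ ⌊Real.sqrt (Y / D)⌋₊) : (k : ℝ) ^ 2 * D ≤ Y := by
  have hD0 : 0 < D := by linarith
  have hkN' : (k : ℝ) ≤ Real.sqrt (Y / D) :=
    le_trans (by exact_mod_cast hkN) (Nat.floor_le (Real.sqrt_nonneg _))
  have hsq : (k : ℝ) ^ 2 ≤ Y / D := by
    have := Real.sq_sqrt (show 0 ≤ Y / D by positivity)
    nlinarith [Real.sqrt_nonneg (Y / D), (Nat.cast_nonneg k : (0 : ℝ) ≤ k)]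
  rwa [le_div_iff₀ hD0] at hsq

theorem trp9_num {Y D : ℝ} (hY : 1 ≤ Y) (hD1 : 1 ≤ D) {k h : ℕ}
    (hk : 1 ≤ k) (hkN : k ≤ ⌊Real.sqrt (Y / D)⌋₊) (hh' : h ≤ k) :
    Real.sqrt D ≤ Real.sqrt (2 * Y) / Real.sqrt (nn (vec k h)) ∧
      1 ≤ Real.sqrt (nn (vec k h)) := by
  have hD0 : 0 < D := by linarith
  have hk1 : (1 : ℝ) ≤ k := by exact_mod_cast hk
  have hkh : (h : ℝ) ≤ k := by exact_mod_cast hh'
  have hh0 : (0 : ℝ) ≤ h := Nat.cast_nonneg _
  have hnn : (nn (vec k h) : ℝ) = (k : ℝ) ^ 2 + (h : ℝ) ^ 2 := by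
    rw [trp9_nn]; push_cast; ring
  have h1 : (1 : ℝ) ≤ nn (vec k h) := by rw [hnn]; nlinarith
  have h2 : (1 : ℝ) ≤ Real.sqrt (nn (vec k h)) := Real.one_le_sqrt.2 h1
  refine ⟨?_, h2⟩
  rw [le_div_iff₀ (by linarith), ← Real.sqrt_mul hD0.le]
  apply Real.sqrt_le_sqrt
  rw [hnn]
  have h3 := trp9_ksq hY hD1 hkN
  have h4 : (h : ℝ) ^ 2 * D ≤ (k : ℝ) ^ 2 * D := by gcongr
  linarith

/-- `v.re ^ 2` is between `nn v / 2` and `nn v` -/
theorem trp9_re {v : G} (h2 : 0 < v.im) (h3 : v.im < v.re) :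
    0 < v.re ∧ (v.re : ℝ) ^ 2 ≤ nn v ∧ (nn v : ℝ) ≤ 2 * (v.re : ℝ) ^ 2 := by
  have h5 := nn_cast v
  have h6 : (nn v : ℝ) = (v.re : ℝ) ^ 2 + (v.im : ℝ) ^ 2 := by exact_mod_cast h5
  have h7 : (0 : ℝ) < v.im := by exact_mod_cast h2
  have h8 : (v.im : ℝ) < v.re := by exact_mod_cast h3
  refine ⟨by omega, by nlinarith, by nlinarith⟩

/-- the determinant is not zero -/
theorem trp9_ne {Y D : ℝ} (hY : 1 ≤ Y) (hD2 : 2 ≤ D) {k h : ℕ} (hk : 1 ≤ k)
    (hkN : k ≤ ⌊Real.sqrt (Y / D)⌋₊) {v : G} (hprm : Prm v) (h2 : 0 < v.im) (h3 : v.im < v.re)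
    (hpY : Y < (nn v : ℝ)) : det v (vec k h) ≠ 0 := by
  intro h0
  obtain ⟨hre, -, hre2⟩ := trp9_re h2 h3
  have h1 : v.re * (h : ℤ) = v.im * (k : ℤ) := by
    unfold det vec at h0
    simp only at h0
    linarith
  have h2 : v.re ∣ (k : ℤ) := by
    have h3 : IsCoprime v.re v.im := by
      rw [Int.isCoprime_iff_gcd_eq_one]
      exact hprm
    exact h3.dvd_of_dvd_mul_left ⟨h, h1.symm⟩
  have h5 : v.re ≤ (k : ℤ) := Int.le_of_dvd (by exact_mod_cast hk) h2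
  have h6 : (v.re : ℝ) ≤ k := by exact_mod_cast h5
  have h7 : (0 : ℝ) < v.re := by exact_mod_cast hre
  have h8 := trp9_ksq hY (by linarith : (1 : ℝ) ≤ D) hkN
  have h9 : (v.re : ℝ) ^ 2 ≤ (k : ℝ) ^ 2 := by gcongr
  nlinarith [sq_nonneg (k : ℝ)]

open Classical in
theorem w_line_r_pr (ε : ℝ) (hε : 0 < ε) : ∃ C Y₀ : ℝ, 1 ≤ C ∧ ∀ Y : ℝ, Y₀ ≤ Y → ∀ D : ℝ,
    Y ^ ε ≤ D → D ≤ Y → ∀ q : ℕ, 1 ≤ q → (q : ℝ) ≤ D ^ (1 / 8 : ℝ) →
    ∀ v ∈ RE (Y ^ ε) Y, ∀ k h : ℕ, 1 ≤ k → k ≤ ⌊Real.sqrt (Y / D)⌋₊ → h ≤ k → Nat.Coprime k h →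
    |(det v (vec k h) : ℝ)| ≤ (v.re : ℝ) / (⌊Real.sqrt (Y / D)⌋₊ + 1) →
    ∀ l : ℤ, l ≠ 0 →
    (((RE (Y ^ ε) Y).filter (fun w => det w (vec k h) = l ∧
      det v w ≠ 0 ∧ |(det v w : ℝ)| ≤ D ∧ (q : ℤ) ∣ det v w)).card : ℝ) ≤
      C * (min (2 * D / |(det v (vec k h) : ℝ)|)
        (2 * Real.sqrt (2 * Y) / Real.sqrt (nn (vec k h))) *
        (Int.gcd (det v (vec k h)) q : ℝ) / q) / Real.log Y *
        (hh q * hh (nn (vec k h)) * hh l.natAbs) ^ 2 := by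
  obtain ⟨C, hC, hL⟩ := line_points_r
  refine ⟨C * (8 / ε) + 1, max 100 (2 ^ (4 / ε)), by
    have : 0 < C * (8 / ε) := by positivity
    linarith, ?_⟩
  intro Y hYY D hD1 hD2 q hq hqD v hvR k h hk hkN hhk hkh hj l hl
  have hY : 100 ≤ Y := (le_max_left _ _).trans hYY
  have hY1 : 1 ≤ Y := by linarith
  have hY0 : 0 < Y := by linarith
  have hlogY : 0 < Real.log Y := Real.log_pos (by linarith)
  have hYe4 : 2 ≤ Y ^ (ε / 4) := by
    have h1 : (2 : ℝ) ^ (4 / ε) ≤ Y := (le_max_right _ _).trans hYY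
    calc (2 : ℝ) = ((2 : ℝ) ^ (4 / ε)) ^ (ε / 4) := by
          rw [← Real.rpow_mul (by norm_num)]
          rw [div_mul_div_cancel₀' (by norm_num) ε ε, div_self hε.ne', Real.rpow_one]
      _ ≤ Y ^ (ε / 4) := Real.rpow_le_rpow (by positivity) h1 (by positivity)
  have hYe : 2 ≤ Y ^ ε := hYe4.trans (Real.rpow_le_rpow_of_exponent_le hY1 (by linarith))
  have hD22 : 2 ≤ D := hYe.trans hD1
  have hD1' : 1 ≤ D := by linarith
  have hD0 : 0 < D := by linarith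
  obtain ⟨hvY, hvY2, hvp, hvim, hvre, -⟩ := trp9_mem hvR
  obtain ⟨hn1, hn2⟩ := trp9_num hY1 hD1' hk hkN hhk
  have hjne := trp9_ne (h := h) hY1 hD22 hk hkN hvp hvim hvre hvY
  obtain ⟨hre0, hre1, -⟩ := trp9_re hvim hvre
  set e := vec k h with he
  set j := det v e with hjdef
  set E := Real.sqrt (nn e) with hE
  have hE0 : 0 < E := by linarith
  have hEE : E ^ 2 = (nn e : ℝ) := Real.sq_sqrt (Nat.cast_nonneg _)
  have hj0 : 0 < |(j : ℝ)| := by
    rw [abs_pos]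
    exact_mod_cast hjne
  -- the bound for `j`
  have hjle : |(j : ℝ)| ≤ Real.sqrt (2 * D) := by
    refine hj.trans ?_
    have hN : Real.sqrt (Y / D) < (⌊Real.sqrt (Y / D)⌋₊ : ℝ) + 1 := Nat.lt_floor_add_one _
    have hs : 0 < Real.sqrt (Y / D) := Real.sqrt_pos.2 (by positivity)
    rw [div_le_iff₀ (by linarith)]
    have h1 : (v.re : ℝ) ≤ Real.sqrt (2 * Y) := by
      apply Real.le_sqrt_of_sq_le
      linarith
    have h2 : Real.sqrt (2 * Y) = Real.sqrt (2 * D) * Real.sqrt (Y / D) := by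
      rw [← Real.sqrt_mul (by positivity)]
      congr 1
      field_simp
    rw [h2] at h1
    refine h1.trans ?_
    exact mul_le_mul_of_nonneg_left hN.le (Real.sqrt_nonneg _)
  set M := min (2 * D / |(j : ℝ)|) (2 * Real.sqrt (2 * Y) / E) with hM
  have hMD : Real.sqrt D ≤ M := by
    rw [hM, le_min_iff]
    constructor
    · rw [le_div_iff₀ hj0]
      have h1 : Real.sqrt D * |(j : ℝ)| ≤ Real.sqrt D * Real.sqrt (2 * D) :=
        mul_le_mul_of_nonneg_left hjle (Real.sqrt_nonneg _)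
      have h2 : Real.sqrt D * Real.sqrt (2 * D) ≤ 2 * D := by
        rw [← Real.sqrt_mul hD0.le, Real.sqrt_le_left (by positivity)]
        nlinarith
      linarith
    · have h1 : 2 * Real.sqrt (2 * Y) / E = 2 * (Real.sqrt (2 * Y) / E) := by ring
      rw [h1]
      have := Real.sqrt_nonneg D
      linarith
  have hM0 : 0 < M := lt_of_lt_of_le (Real.sqrt_pos.2 hD0) hMD
  set g := Int.gcd j q with hg
  have hgq : g ∣ q := by
    have := Int.gcd_dvd_right j (q : ℤ)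
    exact_mod_cast this
  have hg1 : 1 ≤ g := Nat.pos_of_dvd_of_pos hgq hq
  have hg1' : (1 : ℝ) ≤ g := by exact_mod_cast hg1
  have hgleq : (g : ℝ) ≤ q := by exact_mod_cast Nat.le_of_dvd hq hgq
  have hq0 : (0 : ℝ) < q := by exact_mod_cast hq
  have hqg : (((q / g : ℕ)) : ℝ) = (q : ℝ) / g := by
    rw [Nat.cast_div hgq (by positivity)]
  have hqg1 : 1 ≤ q / g := Nat.div_pos (Nat.le_of_dvd hq hgq) hg1
  set R := M * (g : ℝ) / q with hR
  -- lower bound for `R`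
  have hRD : D ^ (3 / 8 : ℝ) ≤ R := by
    rw [hR, le_div_iff₀ hq0]
    calc D ^ (3 / 8 : ℝ) * q ≤ D ^ (3 / 8 : ℝ) * D ^ (1 / 8 : ℝ) := by gcongr
      _ = Real.sqrt D := by
          rw [← Real.rpow_add hD0, Real.sqrt_eq_rpow]
          norm_num
      _ ≤ M := hMD
      _ = M * 1 := by ring
      _ ≤ M * g := by gcongr
  have hRY : Y ^ (ε / 4) ≤ R := by
    refine le_trans ?_ hRD
    refine le_trans (Real.rpow_le_rpow_of_exponent_le hY1
      (show ε / 4 ≤ 3 * ε / 8 by linarith)) ?_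
    rw [show 3 * ε / 8 = ε * (3 / 8) by ring, Real.rpow_mul hY0.le]
    exact Real.rpow_le_rpow (by positivity) hD1 (by norm_num)
  have hR1 : 1 ≤ R := by linarith
  have hRHS : 0 ≤ R / Real.log Y * (hh q * hh (nn e) * hh l.natAbs) ^ 2 := by positivity
  set F := (RE (Y ^ ε) Y).filter (fun w => det w e = l ∧
      det v w ≠ 0 ∧ |(det v w : ℝ)| ≤ D ∧ (q : ℤ) ∣ det v w) with hFdef
  have hF : ∀ w ∈ F, Y < (nn w : ℝ) ∧ (nn w : ℝ) ≤ 2 * Y ∧
      (∀ p : ℕ, p.Prime → p ∣ nn w → Y ^ ε < (p : ℝ)) ∧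
      det w e = l ∧ |(det v w : ℝ)| ≤ D ∧ (q : ℤ) ∣ det v w := by
    intro w hw
    rw [hFdef, Finset.mem_filter] at hw
    obtain ⟨a, b, -, -, -, f⟩ := trp9_mem hw.1
    exact ⟨a, b, f, hw.2.1, hw.2.2.2.1, hw.2.2.2.2⟩
  have hgoal : C * (R + 1) / (ε / 4 * Real.log Y) *
      (hh q * hh (nn e) * hh l.natAbs) ^ 2 ≤ (C * (8 / ε) + 1) * R / Real.log Y *
        (hh q * hh (nn e) * hh l.natAbs) ^ 2 := by
    have h1 : C * (R + 1) / (ε / 4 * Real.log Y) ≤ C * (R + R) / (ε / 4 * Real.log Y) := by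
      gcongr
    have h2 : C * (R + R) / (ε / 4 * Real.log Y) = C * (8 / ε) * (R / Real.log Y) := by
      field_simp
      ring
    have h3 : C * (8 / ε) * (R / Real.log Y) ≤ (C * (8 / ε) + 1) * (R / Real.log Y) := by
      apply mul_le_mul_of_nonneg_right _ (by positivity)
      linarith
    calc _ ≤ (C * (8 / ε) + 1) * (R / Real.log Y) *
        (hh q * hh (nn e) * hh l.natAbs) ^ 2 := by
          gcongr
          linarith
      _ = _ := by ring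
  refine le_trans ?_ hgoal
  rcases F.eq_empty_or_nonempty with hFe | ⟨w₁, hw₁F⟩
  · rw [hFe]
    simp only [Finset.card_empty, Nat.cast_zero]
    positivity
  obtain ⟨-, -, -, hw₁, -, hqw₁⟩ := hF w₁ hw₁F
  set T := R + 1 with hT
  have hnnE : (0 : ℝ) < nn e := by rw [← hEE]; positivity
  set c₀ := (ip v e : ℝ) * l / j with hc₀
  set α := max (c₀ - D * nn e / |(j : ℝ)|) (-(Real.sqrt (2 * Y) * E)) with hα
  set β := min (c₀ + D * nn e / |(j : ℝ)|) (Real.sqrt (2 * Y) * E) with hβ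
  have hβα : β - α ≤ M * nn e := by
    rw [hM, min_mul_of_nonneg _ _ hnnE.le, le_min_iff]
    constructor
    · have h1 : β ≤ c₀ + D * nn e / |(j : ℝ)| := min_le_left _ _
      have h2 : c₀ - D * nn e / |(j : ℝ)| ≤ α := le_max_left _ _
      have h3 : 2 * D / |(j : ℝ)| * nn e = 2 * (D * nn e / |(j : ℝ)|) := by ring
      linarith
    · have h1 : β ≤ Real.sqrt (2 * Y) * E := min_le_right _ _
      have h2 : -(Real.sqrt (2 * Y) * E) ≤ α := le_max_right _ _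
      have h3 : 2 * Real.sqrt (2 * Y) / E * nn e = 2 * (Real.sqrt (2 * Y) * E) := by
        rw [← hEE]
        field_simp
      linarith
  have key := hL e w₁ (q / g) α β T (Y ^ (ε / 4))
    F (trp9_prm hkh) (by rw [hw₁]; exact hl) hqg1 hYe4 (by rw [hT]; linarith) (by
      rw [hqg, hT, hR]
      have h1 : (β - α) / ((q : ℝ) / g * nn e) ≤ M * nn e / ((q : ℝ) / g * nn e) := by
        gcongr
      have h2 : M * nn e / ((q : ℝ) / g * nn e) = M * g / q := by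
        field_simp
      linarith) (by
      intro w hw
      obtain ⟨h3, h4, h10, h5, h6, h7⟩ := hF w hw
      have hip := trp9_ip w e
      have hip2 : |(ip w e : ℝ)| ≤ Real.sqrt (2 * Y) * E := by
        refine hip.trans ?_
        apply mul_le_mul_of_nonneg_right _ (Real.sqrt_nonneg _)
        exact Real.sqrt_le_sqrt h4
      have hpl := plu_b v w e
      rw [h5] at hpl
      have hpl2 : (nn e : ℝ) * (det v w : ℝ) = (j : ℝ) * (ip w e : ℝ) -
          (ip v e : ℝ) * l := by exact_mod_cast hpl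
      have hjR : (j : ℝ) ≠ 0 := abs_pos.1 hj0
      have hdist : |(ip w e : ℝ) - c₀| ≤ D * nn e / |(j : ℝ)| := by
        have h8 : (ip w e : ℝ) - c₀ = (nn e : ℝ) * (det v w : ℝ) / j := by
          rw [hpl2, hc₀]
          field_simp
        rw [h8, abs_div, abs_mul, abs_of_pos hnnE, mul_comm D]
        gcongr
      rw [abs_le] at hip2 hdist
      refine ⟨by rw [h5, hw₁], ?_, ?_, ?_, ?_⟩
      · exact plu_class hq (trp9_prm hkh) h7 hqw₁ (by rw [h5, hw₁])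
      · rw [hα, max_le_iff]
        exact ⟨by linarith [hdist.1], hip2.1⟩
      · rw [hβ, le_min_iff]
        exact ⟨by linarith [hdist.2], hip2.2⟩
      · intro p hp hpd
        refine lt_of_le_of_lt ?_ (h10 p hp hpd)
        exact Real.rpow_le_rpow_of_exponent_le hY1 (by linarith))
  rw [hw₁] at key
  have hnn0 : nn e ≠ 0 := by
    intro h0
    rw [h0] at hnnE
    simp at hnnE
  have hl0 : l.natAbs ≠ 0 := by simpa using hl
  have hhh : hh (q / g * nn e * l.natAbs) ^ 2 ≤ (hh q * hh (nn e) * hh l.natAbs) ^ 2 := by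
    have h0 : q / g ≠ 0 := by omega
    have h1 := hh_mul_le (q / g * nn e) l.natAbs (mul_ne_zero h0 hnn0) hl0
    have h2 := hh_mul_le (q / g) (nn e) h0 hnn0
    have h3 : hh (q / g) ≤ hh q := hh_mono (Nat.div_dvd_of_dvd hgq) (by omega)
    have h4 := hh_one_le (q / g * nn e * l.natAbs)
    have h5 := hh_one_le (nn e)
    have h6 := hh_one_le l.natAbs
    have h7 : hh (q / g * nn e * l.natAbs) ≤ hh q * hh (nn e) * hh l.natAbs := by
      calc _ ≤ hh (q / g * nn e) * hh l.natAbs := h1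
        _ ≤ hh (q / g) * hh (nn e) * hh l.natAbs := by gcongr
        _ ≤ hh q * hh (nn e) * hh l.natAbs := by gcongr
    gcongr
  have hlogT : Real.log (Y ^ (ε / 4)) = ε / 4 * Real.log Y := Real.log_rpow hY0 _
  rw [hlogT] at key
  calc ((F.card : ℕ) : ℝ) ≤ C * T / (ε / 4 * Real.log Y) * hh (q / g * nn e * l.natAbs) ^ 2 := key
    _ ≤ C * T / (ε / 4 * Real.log Y) * (hh q * hh (nn e) * hh l.natAbs) ^ 2 := by
        gcongr

end Pool.Agent.TF

namespace Pool.Agent.TF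

theorem w_line_r : type_of% @w_line_r_pr := @w_line_r_pr

end Pool.Agent.TF
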