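import Mathlib
import Pool.Agent.Lib_helper18.TR.Defs
import Pool.Agent.Lib_helper10.T2F.BAS
import Pool.Agent.Lib_helper10.T2F.PEL
import Pool.Agent.Lib_helper10.T2F.CNT
import Pool.Agent.Lib_helper10.T2F.SLW
import Pool.Agent.Lib_helper10.T2F.SLG
import Pool.Agent.Lib_helper10.T2F.MER
import Pool.Agent.Lib_helper10.T2F.DSR
import Pool.Agent.Lib_helper73.Var.LS
import Pool.Agent.Lib_helper18.TFF.P1
import Pool.Agent.Lib_helper18.TRF.P7

namespace Pool.Agent.TF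

open Pool.Agent.T2

theorem tr11_nn (k h : ℕ) : nn (vec k h) = k ^ 2 + h ^ 2 := by
  have h1 := nn_cast (vec k h)
  have h2 : ((nn (vec k h) : ℕ) : ℤ) = ((k ^ 2 + h ^ 2 : ℕ) : ℤ) := by
    rw [h1]; simp [vec]
  exact_mod_cast h2

theorem tr11_prm {k h : ℕ} (hkh : Nat.Coprime k h) : Prm (vec k h) := by
  unfold Prm vec
  simpa [Int.gcd_natCast_natCast] using hkh

theorem tr11_ip (w e : G) : |(ip w e : ℝ)| ≤ Real.sqrt (nn w) * Real.sqrt (nn e) := by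
  rw [← Real.sqrt_mul (Nat.cast_nonneg _)]
  apply Real.abs_le_sqrt
  have h := ip_sq_add w e
  have h2 : (nn w : ℝ) * nn e = (ip w e : ℝ) ^ 2 + (det w e : ℝ) ^ 2 := by exact_mod_cast h
  rw [h2]
  nlinarith [sq_nonneg (det w e : ℝ)]

theorem tr11_num {Y D : ℝ} (hY : 1 ≤ Y) (hD1 : 1 ≤ D) {k h : ℕ}
    (hk : 1 ≤ k) (hkN : k ≤ ⌊Real.sqrt (Y / D)⌋₊) (hh' : h ≤ k) :
    Real.sqrt D ≤ Real.sqrt (2 * Y) / Real.sqrt (nn (vec k h)) ∧
      1 ≤ Real.sqrt (nn (vec k h)) := by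
  have hD0 : 0 < D := by linarith
  have hk1 : (1 : ℝ) ≤ k := by exact_mod_cast hk
  have hkh : (h : ℝ) ≤ k := by exact_mod_cast hh'
  have hh0 : (0 : ℝ) ≤ h := Nat.cast_nonneg _
  have hkN' : (k : ℝ) ≤ Real.sqrt (Y / D) :=
    le_trans (by exact_mod_cast hkN) (Nat.floor_le (Real.sqrt_nonneg _))
  have hnn : (nn (vec k h) : ℝ) = (k : ℝ) ^ 2 + (h : ℝ) ^ 2 := by
    rw [tr11_nn]; push_cast; ring
  have hsq : (k : ℝ) ^ 2 ≤ Y / D := by
    have := Real.sq_sqrt (show 0 ≤ Y / D by positivity)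
    nlinarith [Real.sqrt_nonneg (Y / D)]
  have h1 : (1 : ℝ) ≤ nn (vec k h) := by rw [hnn]; nlinarith
  have h2 : (1 : ℝ) ≤ Real.sqrt (nn (vec k h)) := Real.one_le_sqrt.2 h1
  refine ⟨?_, h2⟩
  rw [le_div_iff₀ (by linarith), ← Real.sqrt_mul hD0.le]
  apply Real.sqrt_le_sqrt
  rw [hnn]
  have h3 : (k : ℝ) ^ 2 * D ≤ Y := by
    rw [le_div_iff₀ hD0] at hsq
    exact hsq
  have h4 : (h : ℝ) ^ 2 * D ≤ (k : ℝ) ^ 2 * D := by gcongr
  linarith

open Classical in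
theorem v_line_r_pr (ε : ℝ) (hε : 0 < ε) : ∃ C Y₀ : ℝ, 1 ≤ C ∧ ∀ Y : ℝ, Y₀ ≤ Y → ∀ D : ℝ,
    Y ^ ε ≤ D → D ≤ Y → ∀ k h : ℕ, 1 ≤ k → k ≤ ⌊Real.sqrt (Y / D)⌋₊ → h ≤ k → Nat.Coprime k h →
    ∀ j : ℤ, j ≠ 0 →
    (((RE (Y ^ ε) Y).filter (fun v => det v (vec k h) = j)).card : ℝ) ≤
      C * Real.sqrt Y / (Real.sqrt (nn (vec k h)) * Real.log Y) *
        (hh (nn (vec k h)) * hh j.natAbs) ^ 2 := by
  obtain ⟨C, hC, hL⟩ := line_points_r
  refine ⟨C * (10 / ε) + 1, max 100 (2 ^ (2 / ε)), by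
    have : 0 < C * (10 / ε) := by positivity
    linarith, ?_⟩
  intro Y hYm D hD1 hD2 k h hk hkN hhk hkh j hj
  have hY : 100 ≤ Y := (le_max_left _ _).trans hYm
  have hYe' : (2 : ℝ) ^ (2 / ε) ≤ Y := (le_max_right _ _).trans hYm
  have hY1 : 1 ≤ Y := by linarith
  have hR2 : 2 ≤ Y ^ (ε / 2) := by
    calc (2 : ℝ) = ((2 : ℝ) ^ (2 / ε)) ^ (ε / 2) := by
          rw [← Real.rpow_mul (by norm_num), div_mul_div_comm, mul_comm ε 2,
            div_self (by positivity), Real.rpow_one]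
      _ ≤ Y ^ (ε / 2) := Real.rpow_le_rpow (by positivity) hYe' (by positivity)
  have hY0 : 0 < Y := by linarith
  have hlogY : 0 < Real.log Y := Real.log_pos (by linarith)
  have hYe : 1 ≤ Y ^ ε := Real.one_le_rpow hY1 hε.le
  have hD1' : 1 ≤ D := by linarith
  have hD0 : 0 < D := by linarith
  obtain ⟨hn1, hn2⟩ := tr11_num hY1 hD1' hk hkN hhk
  set e := vec k h with he
  set E := Real.sqrt (nn e) with hE
  have hE0 : 0 < E := by linarith
  have hEE : E ^ 2 = (nn e : ℝ) := Real.sq_sqrt (Nat.cast_nonneg _)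
  set R := Real.sqrt (2 * Y) / E with hR
  have hsD : Y ^ (ε / 2) ≤ Real.sqrt D := by
    rw [Real.sqrt_eq_rpow, show ε / 2 = ε * (1 / 2) by ring, Real.rpow_mul hY0.le]
    exact Real.rpow_le_rpow (by positivity) hD1 (by norm_num)
  have hRY : Y ^ (ε / 2) ≤ R := hsD.trans hn1
  have hYe2 : 1 ≤ Y ^ (ε / 2) := Real.one_le_rpow hY1 (by positivity)
  have hR1 : 1 ≤ R := hYe2.trans hRY
  have hRle : R ≤ Real.sqrt (2 * Y) := div_le_self (Real.sqrt_nonneg _) hn2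
  have hRHS : 0 ≤ Real.sqrt Y / (E * Real.log Y) * (hh (nn e) * hh j.natAbs) ^ 2 := by
    positivity
  set F := (RE (Y ^ ε) Y).filter (fun v => det v (vec k h) = j) with hFdef
  have hF : ∀ w ∈ F, (nn w : ℝ) ≤ 2 * Y ∧ det w e = j ∧
      ∀ p : ℕ, p.Prime → p ∣ nn w → Y ^ (ε / 2) < (p : ℝ) := by
    intro w hw
    rw [hFdef, Finset.mem_filter] at hw
    obtain ⟨h1, h2⟩ := hw
    unfold RE at h1
    rw [Finset.mem_filter, mem_Bl] at h1
    refine ⟨h1.1.2, h2, fun p hp hpd => ?_⟩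
    have h3 := h1.2.2.2.2.2 p hp hpd
    refine lt_of_le_of_lt ?_ h3
    exact Real.rpow_le_rpow_of_exponent_le hY1 (by linarith)
  rcases F.eq_empty_or_nonempty with hFe | ⟨p₁, hp₁⟩
  · rw [hFe]
    simp only [Finset.card_empty, Nat.cast_zero]
    have : 0 < C * (10 / ε) + 1 := by positivity
    positivity
  have hw₁ := (hF p₁ hp₁).2.1
  set T := 2 * R + 1 with hT
  have key := hL e p₁ 1 (-(Real.sqrt (2 * Y) * E)) (Real.sqrt (2 * Y) * E) T (Y ^ (ε / 2))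
    F (tr11_prm hkh) (by rw [hw₁]; exact hj) le_rfl hR2 (by rw [hT]; linarith) (by
      rw [← hEE, hT, hR]
      apply le_of_eq
      field_simp
      push_cast
      ring) (by
      intro w hw
      obtain ⟨h4, h5, h6⟩ := hF w hw
      have hip := tr11_ip w e
      have hip2 : |(ip w e : ℝ)| ≤ Real.sqrt (2 * Y) * E := by
        refine hip.trans ?_
        apply mul_le_mul_of_nonneg_right _ (Real.sqrt_nonneg _)
        exact Real.sqrt_le_sqrt h4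
      rw [abs_le] at hip2
      exact ⟨by rw [h5, hw₁], by simp, hip2.1, hip2.2, h6⟩)
  rw [hw₁] at key
  have hnn0 : nn e ≠ 0 := by
    intro h0
    rw [h0] at hEE
    have : 0 < E ^ 2 := by positivity
    rw [hEE] at this
    simp at this
  have hj0 : j.natAbs ≠ 0 := by simpa using hj
  have hhh : hh (1 * nn e * j.natAbs) ^ 2 ≤ (hh (nn e) * hh j.natAbs) ^ 2 := by
    rw [one_mul]
    have h1 := hh_mul_le (nn e) j.natAbs hnn0 hj0
    have h2 := hh_one_le (nn e * j.natAbs)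
    gcongr
  have hlogT : Real.log (Y ^ (ε / 2)) = ε / 2 * Real.log Y := Real.log_rpow hY0 _
  have hT3 : T ≤ 3 * R := by rw [hT]; linarith
  have hsq2 : Real.sqrt (2 * Y) ≤ 3 / 2 * Real.sqrt Y := by
    rw [Real.sqrt_mul (by norm_num)]
    apply mul_le_mul_of_nonneg_right _ (Real.sqrt_nonneg _)
    rw [Real.sqrt_le_left (by norm_num)]
    norm_num
  have hR3 : R ≤ 3 / 2 * Real.sqrt Y / E := by rw [hR]; gcongr
  rw [hlogT] at key
  calc ((F.card : ℕ) : ℝ) ≤ C * T / (ε / 2 * Real.log Y) * hh (1 * nn e * j.natAbs) ^ 2 := key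
    _ ≤ C * (3 * R) / (ε / 2 * Real.log Y) * (hh (nn e) * hh j.natAbs) ^ 2 := by
        gcongr
    _ ≤ C * (3 * (3 / 2 * Real.sqrt Y / E)) / (ε / 2 * Real.log Y) *
        (hh (nn e) * hh j.natAbs) ^ 2 := by
        gcongr
    _ = C * (9 / ε) * (Real.sqrt Y / (E * Real.log Y) * (hh (nn e) * hh j.natAbs) ^ 2) := by
        field_simp
        ring
    _ ≤ (C * (10 / ε) + 1) * (Real.sqrt Y / (E * Real.log Y) *
        (hh (nn e) * hh j.natAbs) ^ 2) := by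
        apply mul_le_mul_of_nonneg_right _ hRHS
        have h1 : 9 / ε ≤ 10 / ε := by gcongr; norm_num
        nlinarith
    _ = (C * (10 / ε) + 1) * Real.sqrt Y / (E * Real.log Y) *
        (hh (nn e) * hh j.natAbs) ^ 2 := by ring





end Pool.Agent.TF

namespace Pool.Agent.TF

theorem v_line_r : type_of% @v_line_r_pr := @v_line_r_pr

end Pool.Agent.TF
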