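import Mathlib
import Pool.Agent.Lib_helper18.TR.Defs
import Pool.Agent.Lib_helper10.T2F.BAS
import Pool.Agent.Lib_helper10.T2F.PEL
import Pool.Agent.Lib_helper10.T2F.CNT
import Pool.Agent.Lib_helper10.T2F.SLW
import Pool.Agent.Lib_helper10.T2F.SLG
import Pool.Agent.Lib_helper10.T2F.MER
import Pool.Agent.Lib_helper10.T2F.DSR
import Pool.Agent.Lib_helper73.Var.LS
import Pool.Agent.Lib_helper18.TRF.P12

/-! TR, block P13: the trivial bound for pairs, facts on `RE`, the rough level `x^κ`. -/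

namespace Pool.Agent.TF

open Pool.Agent.T2

theorem p13r_mem {R Y : ℝ} {u : G} : u ∈ RE R Y ↔ (u ≠ 0 ∧ (nn u : ℝ) ≤ 2 * Y) ∧
    Y < (nn u : ℝ) ∧ Prm u ∧ 0 < u.im ∧ u.im < u.re ∧
      ∀ p : ℕ, p.Prime → p ∣ nn u → R < (p : ℝ) := by
  classical
  unfold RE
  rw [Finset.mem_filter, mem_Bl]

theorem p13r_cop {v : G} (hv : Prm v) : IsCoprime v.re v.im := by
  rw [Int.isCoprime_iff_gcd_eq_one]
  exact hv

/-- two elements with the same determinant and nearly the same inner product are equal -/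
theorem p13r_inj {v w w' : G} (hv : Prm v) (hv0 : 0 < (nn v : ℤ)) (hd : det v w = det v w')
    (hi : |ip v w - ip v w'| < (nn v : ℤ)) : w = w' := by
  have hn := nn_cast v
  have e1 : v.re * (w.im - w'.im) = v.im * (w.re - w'.re) := by
    unfold det at hd; linarith
  have e2 : ip v w - ip v w' = v.re * (w.re - w'.re) + v.im * (w.im - w'.im) := by
    unfold ip; ring
  set t := ip v w - ip v w' with ht
  have e3 : t * v.re = (nn v : ℤ) * (w.re - w'.re) := by
    rw [e2, hn]; linear_combination v.im * e1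
  have e4 : t * v.im = (nn v : ℤ) * (w.im - w'.im) := by
    rw [e2, hn]; linear_combination -v.re * e1
  obtain ⟨α, β, hαβ⟩ := p13r_cop hv
  have h5 : (nn v : ℤ) ∣ t := by
    refine ⟨α * (w.re - w'.re) + β * (w.im - w'.im), ?_⟩
    calc t = t * (α * v.re + β * v.im) := by rw [hαβ, mul_one]
      _ = α * (t * v.re) + β * (t * v.im) := by ring
      _ = _ := by rw [e3, e4]; ring
  have h6 : t = 0 := Int.eq_zero_of_abs_lt_dvd h5 hi
  rw [h6, zero_mul] at e3 e4
  have h7 : w.re - w'.re = 0 := by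
    rcases mul_eq_zero.mp e3.symm with h | h
    · exact absurd h hv0.ne'
    · exact h
  have h8 : w.im - w'.im = 0 := by
    rcases mul_eq_zero.mp e4.symm with h | h
    · exact absurd h hv0.ne'
    · exact h
  exact Zsqrtd.ext (by omega) (by omega)

theorem re_anti_pr {R R' Y : ℝ} (h : R ≤ R') : RE R' Y ⊆ RE R Y := by
  intro u hu
  rw [p13r_mem] at hu ⊢
  exact ⟨hu.1, hu.2.1, hu.2.2.1, hu.2.2.2.1, hu.2.2.2.2.1,
    fun p hp hd => lt_of_le_of_lt h (hu.2.2.2.2.2 p hp hd)⟩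

theorem re_det_zero_pr {R Y : ℝ} {v w : G} (hv : v ∈ RE R Y) (hw : w ∈ RE R Y)
    (h : det v w = 0) : v = w := by
  rw [p13r_mem] at hv hw
  have cv := p13r_cop hv.2.2.1
  have cw := p13r_cop hw.2.2.1
  have h1 : v.re * w.im = v.im * w.re := by
    unfold det at h; linarith
  have h2 : v.re ∣ w.re := cv.dvd_of_dvd_mul_left ⟨w.im, h1.symm⟩
  have h3 : w.re ∣ v.re := cw.dvd_of_dvd_mul_left ⟨v.im, by linear_combination h1⟩
  have hv0 : 0 < v.re := lt_trans hv.2.2.2.1 hv.2.2.2.2.1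
  have hw0 : 0 < w.re := lt_trans hw.2.2.2.1 hw.2.2.2.2.1
  have h4 : v.re = w.re := le_antisymm (Int.le_of_dvd hw0 h2) (Int.le_of_dvd hv0 h3)
  have h5 : v.im = w.im := by
    rw [← h4] at h1
    have h6 : v.re * (w.im - v.im) = 0 := by linear_combination h1
    rcases mul_eq_zero.mp h6 with h7 | h7
    · omega
    · omega
  exact Zsqrtd.ext h4 h5

/-- the inner product of two elements of the octant -/
theorem p13r_ip {v w : G} {Y : ℝ} (hY : 1 ≤ Y)
    (h0 : 0 < v.im) (h1 : v.im < v.re) (h2 : 0 < w.im) (h3 : w.im < w.re)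
    (hp : (nn v : ℝ) ≤ 2 * Y) (hp' : (nn w : ℝ) ≤ 2 * Y) :
    0 ≤ ⌊(ip v w : ℝ) / Y⌋ ∧ ⌊(ip v w : ℝ) / Y⌋ ≤ 2 := by
  have hpos : 0 < ip v w := by
    unfold ip
    have a1 : 0 < v.re * w.re := mul_pos (by omega) (by omega)
    have a2 : 0 < v.im * w.im := mul_pos h0 h2
    omega
  have hposR : (0 : ℝ) < ip v w := by exact_mod_cast hpos
  have hn := nn_cast v
  have hm := nn_cast w
  have hsq : (ip v w) ^ 2 ≤ (nn v : ℤ) * nn w := by
    rw [hn, hm]; unfold ip
    nlinarith [sq_nonneg (v.re * w.im - v.im * w.re)]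
  have hsqR : (ip v w : ℝ) ^ 2 ≤ (nn v : ℝ) * nn w := by exact_mod_cast hsq
  have hle : (ip v w : ℝ) ≤ 2 * Y := by
    have h4 : (ip v w : ℝ) ^ 2 ≤ (2 * Y) ^ 2 := by
      refine hsqR.trans ?_
      rw [sq]
      exact mul_le_mul hp hp' (by positivity) (by linarith)
    exact abs_le_of_sq_le_sq' h4 (by linarith) |>.2
  constructor
  · exact Int.floor_nonneg.mpr (by positivity)
  · have h5 : (ip v w : ℝ) / Y ≤ 2 := by
      rw [div_le_iff₀ (by linarith)]; exact hle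
    have h6 := Int.floor_le_floor h5
    have h7 : ⌊(2 : ℝ)⌋ = 2 := by norm_num
    omega

theorem pair_trivial_r_pr : ∃ C : ℝ, 1 ≤ C ∧ ∀ (R Y D : ℝ) (q : ℕ), 1 ≤ Y → 0 ≤ D → 1 ≤ q →
    NR R Y D q ≤ C * Y * D / q := by
  classical
  obtain ⟨C₀, hC₀, hball⟩ := ball_le
  refine ⟨12 * C₀, by linarith, ?_⟩
  intro R Y D q hY hD hq
  have hq0 : (0 : ℝ) < q := by exact_mod_cast hq
  have hqi : (0 : ℤ) < q := by exact_mod_cast hq
  have hY0 : 0 < Y := by linarith
  set K : ℕ := ⌊D / q⌋₊ with hK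
  set M : Finset ℤ := (Finset.Icc (-(K : ℤ)) K).erase 0 with hM
  have hMc : M.card = 2 * K := by
    rw [hM, Finset.card_erase_of_mem (by simp), Int.card_Icc]
    omega
  set S : Finset (G × G) := (RE R Y ×ˢ RE R Y).filter (fun t =>
    det t.1 t.2 ≠ 0 ∧ |(det t.1 t.2 : ℝ)| ≤ D ∧ (q : ℤ) ∣ det t.1 t.2) with hS
  have hcard : S.card ≤ (RE R Y ×ˢ (M ×ˢ Finset.Icc (0 : ℤ) 2)).card := by
    refine Finset.card_le_card_of_injOn (fun t => (t.1, (det t.1 t.2 / q,
      ⌊(ip t.1 t.2 : ℝ) / Y⌋))) ?_ ?_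
    · intro t ht
      have ht' := Finset.mem_coe.mp ht
      rw [hS, Finset.mem_filter, Finset.mem_product] at ht'
      obtain ⟨⟨h1, h2⟩, h3, h4, h5⟩ := ht'
      have m1 := p13r_mem.mp h1
      have m2 := p13r_mem.mp h2
      have hip := p13r_ip hY m1.2.2.2.1 m1.2.2.2.2.1 m2.2.2.2.1 m2.2.2.2.2.1 m1.1.2 m2.1.2
      obtain ⟨k, hk⟩ := h5
      have hdiv : det t.1 t.2 / q = k := by
        rw [hk]; exact Int.mul_ediv_cancel_left _ hqi.ne'
      simp only [Finset.coe_product, Set.mem_prod, Finset.mem_coe, Finset.mem_Icc]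
      refine ⟨h1, ?_, hip⟩
      rw [hdiv, hM, Finset.mem_erase, Finset.mem_Icc]
      have hk0 : k ≠ 0 := by
        rintro rfl
        exact h3 (by rw [hk, mul_zero])
      refine ⟨hk0, ?_⟩
      have habs : |(k : ℝ)| ≤ D / q := by
        rw [le_div_iff₀ hq0]
        have h6 : |(det t.1 t.2 : ℝ)| = |(k : ℝ)| * q := by
          rw [hk]; push_cast; rw [abs_mul, abs_of_pos hq0, mul_comm]
        rw [← h6]; exact h4
      have hkn : k.natAbs ≤ K := by
        rw [hK]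
        refine Nat.le_floor ?_
        rw [Nat.cast_natAbs, Int.cast_abs]; exact habs
      omega
    · intro t ht t' ht' he
      have ht1 := Finset.mem_coe.mp ht
      have ht2 := Finset.mem_coe.mp ht'
      rw [hS, Finset.mem_filter, Finset.mem_product] at ht1 ht2
      obtain ⟨⟨h1, h2⟩, h3, h4, h5⟩ := ht1
      obtain ⟨⟨h1', h2'⟩, h3', h4', h5'⟩ := ht2
      simp only [Prod.mk.injEq] at he
      obtain ⟨e1, e2, e3⟩ := he
      obtain ⟨p, a⟩ := t
      obtain ⟨p', b⟩ := t'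
      simp only at *
      subst e1
      have m1 := p13r_mem.mp h1
      have hdet : det p a = det p b := by
        obtain ⟨k, hk⟩ := h5
        obtain ⟨k', hk'⟩ := h5'
        rw [hk, hk', Int.mul_ediv_cancel_left _ hqi.ne', Int.mul_ediv_cancel_left _ hqi.ne'] at e2
        rw [hk, hk', e2]
      have hip : |ip p a - ip p b| < (nn p : ℤ) := by
        have h6 := Int.abs_sub_lt_one_of_floor_eq_floor e3
        have h7 : |(ip p a : ℝ) - ip p b| < Y := by
          have h8 : (ip p a : ℝ) / Y - (ip p b : ℝ) / Y = ((ip p a : ℝ) - ip p b) / Y := by ring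
          rw [h8, abs_div, abs_of_pos hY0, div_lt_one hY0] at h6
          exact h6
        have h9 : |(ip p a : ℝ) - ip p b| < nn p := h7.trans m1.2.1
        have h10 : ((|ip p a - ip p b| : ℤ) : ℝ) < ((nn p : ℤ) : ℝ) := by
          push_cast; exact h9
        exact_mod_cast h10
      have hnpos : 0 < (nn p : ℤ) := by exact_mod_cast nn_pos.2 m1.1.1
      have hw := p13r_inj m1.2.2.1 hnpos hdet hip
      rw [hw]
  have hpr : ((RE R Y).card : ℝ) ≤ 2 * C₀ * Y := by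
    have h1 : (RE R Y).card ≤ (Bl (2 * Y)).card := Finset.card_le_card (Finset.filter_subset _ _)
    have h2 := hball (2 * Y) (by linarith)
    have h3 : ((RE R Y).card : ℝ) ≤ ((Bl (2 * Y)).card : ℝ) := by exact_mod_cast h1
    linarith
  have hKr : (K : ℝ) ≤ D / q := Nat.floor_le (by positivity)
  have htot : (S.card : ℝ) ≤ (RE R Y).card * ((2 * K) * 3) := by
    rw [Finset.card_product, Finset.card_product, hMc] at hcard
    have h3 : (Finset.Icc (0 : ℤ) 2).card = 3 := by rfl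
    rw [h3] at hcard
    exact_mod_cast hcard
  have hNp : NR R Y D q = (S.card : ℝ) := by
    unfold NR
    rw [hS]
  rw [hNp]
  calc (S.card : ℝ) ≤ (RE R Y).card * ((2 * K) * 3) := htot
    _ ≤ (2 * C₀ * Y) * ((2 * (D / q)) * 3) := by
        refine mul_le_mul hpr ?_ (by positivity) (by positivity)
        linarith
    _ = 12 * C₀ * Y * D / q := by ring

theorem nr_anti {R R' Y D : ℝ} {q : ℕ} (h : R ≤ R') : NR R' Y D q ≤ NR R Y D q := by
  classical
  unfold NR
  have h1 := re_anti_pr (Y := Y) h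
  exact_mod_cast Finset.card_le_card (Finset.filter_subset_filter _
    (Finset.product_subset_product h1 h1))

theorem pair_sieve_x_pr (β τ κ : ℝ) (hβ : β < 1) (hτ : 0 < τ) (hκ : 0 < κ) : ∃ C x₀ : ℝ, 1 ≤ C ∧
    ∀ x : ℝ, x₀ ≤ x → ∀ Y : ℝ, x ^ (1 - β + τ) ≤ Y → Y ≤ x → ∀ D : ℝ, x ^ (τ / 2) ≤ D → D ≤ Y →
    ∀ q : ℕ, 1 ≤ q → (q : ℝ) ≤ D ^ (1 / 8 : ℝ) →
      NR (x ^ κ) Y D q ≤ C * Y * D / (Real.sqrt q * Real.log x ^ 2) := by
  set ε := min (τ / 2) κ with hε
  have hε0 : 0 < ε := lt_min (by linarith) hκ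
  obtain ⟨C, Y₀, hC, hps⟩ := pair_sieve_r ε hε0
  set θ := 1 - β + τ with hθ
  have hθ0 : 0 < θ := by rw [hθ]; linarith
  refine ⟨C * (1 + 1 / θ ^ 2), max 2 (max 1 Y₀ ^ (1 / θ)), ?_, ?_⟩
  · have : 0 < 1 / θ ^ 2 := by positivity
    nlinarith
  intro x hx Y hY1 hY2 D hD1 hD2 q hq hqD
  have hx2 : 2 ≤ x := (le_max_left _ _).trans hx
  have hx0 : 0 < x := by linarith
  have hx1 : 1 ≤ x := by linarith
  have hlx : 0 < Real.log x := Real.log_pos (by linarith)
  have hm1 : (1 : ℝ) ≤ max 1 Y₀ := le_max_left _ _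
  have hYx : max 1 Y₀ ≤ Y := by
    refine le_trans ?_ hY1
    have h1 : max 1 Y₀ ^ (1 / θ) ≤ x := (le_max_right _ _).trans hx
    calc max 1 Y₀ = (max 1 Y₀ ^ (1 / θ)) ^ θ := by
          rw [← Real.rpow_mul (by linarith), one_div, inv_mul_cancel₀ hθ0.ne', Real.rpow_one]
      _ ≤ x ^ θ := Real.rpow_le_rpow (by positivity) h1 hθ0.le
  have hY1' : 1 ≤ Y := hm1.trans hYx
  have hY0 : 0 < Y := by linarith
  have hYe : Y ^ ε ≤ x ^ ε := Real.rpow_le_rpow hY0.le hY2 hε0.le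
  have h1 : Y ^ ε ≤ D := hYe.trans ((Real.rpow_le_rpow_of_exponent_le hx1 (min_le_left _ _)).trans
    hD1)
  have h2 : Y ^ ε ≤ x ^ κ := hYe.trans (Real.rpow_le_rpow_of_exponent_le hx1 (min_le_right _ _))
  have h3 := hps Y ((le_max_right _ _).trans hYx) D h1 hD2 q hq hqD
  refine (nr_anti h2).trans (h3.trans ?_)
  have hD0 : 0 < D := lt_of_lt_of_le (Real.rpow_pos_of_pos hY0 _) h1
  have hsq : 0 < Real.sqrt q := Real.sqrt_pos.2 (by exact_mod_cast hq)
  have hlY : θ * Real.log x ≤ Real.log Y := by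
    rw [← Real.log_rpow hx0]
    exact Real.log_le_log (Real.rpow_pos_of_pos hx0 _) hY1
  have hlY2 : (θ * Real.log x) ^ 2 ≤ Real.log Y ^ 2 := by
    have : 0 < θ * Real.log x := by positivity
    gcongr
  have hC0 : 0 < C := by linarith
  calc C * Y * D / (Real.sqrt q * Real.log Y ^ 2)
      ≤ C * Y * D / (Real.sqrt q * (θ * Real.log x) ^ 2) := by gcongr
    _ = (C * (1 / θ ^ 2)) * Y * D / (Real.sqrt q * Real.log x ^ 2) := by
        field_simp
    _ ≤ C * (1 + 1 / θ ^ 2) * Y * D / (Real.sqrt q * Real.log x ^ 2) := by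
        gcongr
        linarith






end Pool.Agent.TF

namespace Pool.Agent.TF

theorem pair_trivial_r : type_of% @pair_trivial_r_pr := @pair_trivial_r_pr
theorem re_det_zero : type_of% @re_det_zero_pr := @re_det_zero_pr
theorem re_anti : type_of% @re_anti_pr := @re_anti_pr
theorem pair_sieve_x : type_of% @pair_sieve_x_pr := @pair_sieve_x_pr

end Pool.Agent.TF
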