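import Mathlib
import Pool.Agent.Lib_helper18.TR.Defs
import Pool.Agent.Lib_helper10.T2F.BAS
import Pool.Agent.Lib_helper10.T2F.PEL
import Pool.Agent.Lib_helper10.T2F.CNT
import Pool.Agent.Lib_helper10.T2F.SLW
import Pool.Agent.Lib_helper10.T2F.SLG
import Pool.Agent.Lib_helper10.T2F.MER
import Pool.Agent.Lib_helper10.T2F.DSR
import Pool.Agent.Lib_helper73.Var.LS
import Pool.Agent.Lib_helper18.TRF.P13

namespace Pool.Agent.TF

open Pool.Agent.T2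

open Classical in
/-- interchange of the sums -/
theorem tr8_swap (A : Finset (G × G)) (Dt : G × G → ℤ) (L D : ℝ) (hL : 0 < L) (M q₁ : ℕ)
    (hM : ∀ q : ℕ, 1 ≤ q → ¬ q ∣ M → q₁ < q) (F : ℕ → ℝ) (hF : ∀ q, 0 ≤ F q) (N : ℕ → ℝ)
    (hA : ∀ t ∈ A, L ≤ |(Dt t : ℝ)| ∧ |(Dt t : ℝ)| ≤ D)
    (hN : ∀ q : ℕ, 1 ≤ q → ((A.filter (fun t => (q : ℤ) ∣ Dt t)).card : ℝ) ≤ N q) :
    ∑ t ∈ A, 1 / |(Dt t : ℝ)| * ∑ q ∈ (Dt t).natAbs.divisors.filter (fun q => ¬ q ∣ M), F q ≤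
      1 / L * ∑ q ∈ Finset.Ioc q₁ ⌊D⌋₊, F q * N q := by
  have h1 : ∀ t ∈ A, 1 / |(Dt t : ℝ)| *
      ∑ q ∈ (Dt t).natAbs.divisors.filter (fun q => ¬ q ∣ M), F q ≤
      1 / L * ∑ q ∈ Finset.Ioc q₁ ⌊D⌋₊, (if (q : ℤ) ∣ Dt t then F q else 0) := by
    intro t ht
    obtain ⟨ha, hb⟩ := hA t ht
    have hD0 : Dt t ≠ 0 := by
      rintro h0
      rw [h0] at ha
      simp at ha
      linarith
    have hs : ∑ q ∈ (Dt t).natAbs.divisors.filter (fun q => ¬ q ∣ M), F q ≤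
        ∑ q ∈ Finset.Ioc q₁ ⌊D⌋₊, (if (q : ℤ) ∣ Dt t then F q else 0) := by
      rw [← Finset.sum_filter]
      apply Finset.sum_le_sum_of_subset_of_nonneg
      · intro q hq
        rw [Finset.mem_filter, Nat.mem_divisors] at hq
        obtain ⟨⟨hq1, hq2⟩, hq3⟩ := hq
        have hq0 : 1 ≤ q := Nat.pos_of_dvd_of_pos hq1 (Nat.pos_of_ne_zero hq2)
        rw [Finset.mem_filter, Finset.mem_Ioc]
        refine ⟨⟨hM q hq0 hq3, ?_⟩, Int.natCast_dvd.mpr hq1⟩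
        apply Nat.le_floor
        calc (q : ℝ) ≤ ((Dt t).natAbs : ℝ) := by
              exact_mod_cast Nat.le_of_dvd (Nat.pos_of_ne_zero hq2) hq1
          _ = |(Dt t : ℝ)| := by
              rw [Nat.cast_natAbs, Int.cast_abs]
          _ ≤ D := hb
      · intro q _ _
        exact hF q
    have hs0 : 0 ≤ ∑ q ∈ Finset.Ioc q₁ ⌊D⌋₊, (if (q : ℤ) ∣ Dt t then F q else 0) := by
      apply Finset.sum_nonneg
      intro q _
      split_ifs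
      · exact hF q
      · exact le_rfl
    calc 1 / |(Dt t : ℝ)| * ∑ q ∈ (Dt t).natAbs.divisors.filter (fun q => ¬ q ∣ M), F q ≤
        1 / |(Dt t : ℝ)| * ∑ q ∈ Finset.Ioc q₁ ⌊D⌋₊, (if (q : ℤ) ∣ Dt t then F q else 0) :=
          mul_le_mul_of_nonneg_left hs (by positivity)
      _ ≤ _ := mul_le_mul_of_nonneg_right (one_div_le_one_div_of_le hL ha) hs0
  calc _ ≤ ∑ t ∈ A, 1 / L * ∑ q ∈ Finset.Ioc q₁ ⌊D⌋₊, (if (q : ℤ) ∣ Dt t then F q else 0) :=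
        Finset.sum_le_sum h1
    _ = 1 / L * ∑ q ∈ Finset.Ioc q₁ ⌊D⌋₊, ∑ t ∈ A, (if (q : ℤ) ∣ Dt t then F q else 0) := by
        rw [← Finset.mul_sum, Finset.sum_comm]
    _ ≤ 1 / L * ∑ q ∈ Finset.Ioc q₁ ⌊D⌋₊, F q * N q := by
        apply mul_le_mul_of_nonneg_left _ (by positivity)
        apply Finset.sum_le_sum
        intro q hq
        rw [Finset.mem_Ioc] at hq
        rw [← Finset.sum_filter, Finset.sum_const, nsmul_eq_mul, mul_comm]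
        exact mul_le_mul_of_nonneg_left (hN q (by omega)) (hF q)

theorem tr8_split (F N : ℕ → ℝ) (hF : ∀ q, 0 ≤ F q) (q₁ Q₁ Q₂ : ℕ) (a b : ℝ) (ha : 0 ≤ a)
    (hb : 0 ≤ b) (h1 : ∀ q : ℕ, 1 ≤ q → q ≤ Q₁ → N q ≤ a / Real.sqrt q)
    (h2 : ∀ q : ℕ, 1 ≤ q → N q ≤ b / q) :
    ∑ q ∈ Finset.Ioc q₁ Q₂, F q * N q ≤
      a * ∑ q ∈ Finset.Ioc q₁ Q₁, F q / Real.sqrt q + b * ∑ q ∈ Finset.Ioc Q₁ Q₂, F q / q := by
  classical
  have h3 : ∑ q ∈ Finset.Ioc q₁ Q₂, F q * N q ≤ ∑ q ∈ Finset.Ioc q₁ Q₂,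
      (if q ≤ Q₁ then F q * (a / Real.sqrt q) else F q * (b / q)) := by
    apply Finset.sum_le_sum
    intro q hq
    rw [Finset.mem_Ioc] at hq
    split_ifs with h
    · exact mul_le_mul_of_nonneg_left (h1 q (by omega) h) (hF q)
    · exact mul_le_mul_of_nonneg_left (h2 q (by omega)) (hF q)
  refine h3.trans ?_
  rw [Finset.sum_ite]
  apply add_le_add
  · rw [Finset.mul_sum]
    calc ∑ q ∈ (Finset.Ioc q₁ Q₂).filter (fun q => q ≤ Q₁), F q * (a / Real.sqrt q) ≤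
        ∑ q ∈ Finset.Ioc q₁ Q₁, F q * (a / Real.sqrt q) := by
          apply Finset.sum_le_sum_of_subset_of_nonneg
          · intro q hq
            rw [Finset.mem_filter, Finset.mem_Ioc] at hq
            rw [Finset.mem_Ioc]
            omega
          · intro q _ _
            have := hF q
            positivity
      _ = _ := by
          apply Finset.sum_congr rfl
          intro q _
          ring
  · rw [Finset.mul_sum]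
    calc ∑ q ∈ (Finset.Ioc q₁ Q₂).filter (fun q => ¬ q ≤ Q₁), F q * (b / q) ≤
        ∑ q ∈ Finset.Ioc Q₁ Q₂, F q * (b / q) := by
          apply Finset.sum_le_sum_of_subset_of_nonneg
          · intro q hq
            rw [Finset.mem_filter, Finset.mem_Ioc] at hq
            rw [Finset.mem_Ioc]
            omega
          · intro q _ _
            have := hF q
            positivity
      _ = _ := by
          apply Finset.sum_congr rfl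
          intro q _
          ring

open Classical in
theorem mid_sum_r_pr (β τ δ δ₁ κ : ℝ) (hβ : β < 1) (hτ : 0 < τ) (hτβ : 2 * τ < β) (hδ : 0 < δ)
    (hδ' : δ ≤ 1) (hδ₁ : 0 < δ₁) (hκ : 0 < κ) : ∃ C x₀ : ℝ, 1 ≤ C ∧ ∀ x : ℝ, x₀ ≤ x → ∀ Y : ℝ,
    x ^ (1 - β + τ) ≤ Y → Y ≤ x ^ (1 - τ) → ∀ M q₁ : ℕ, 1 ≤ q₁ →
    (∀ q : ℕ, 1 ≤ q → ¬ q ∣ M → q₁ < q) → ∀ F : ℕ → ℝ, (∀ q, 0 ≤ F q) →
    ∑ t ∈ (RE (x ^ κ) Y ×ˢ RE (x ^ κ) Y).filter (fun t =>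
        δ₁ * (Y * x ^ β / x) ≤ |(det t.1 t.2 : ℝ)| ∧
        |(det t.1 t.2 : ℝ)| ≤ 2 * Y * x ^ β / (δ ^ 2 * x)),
      1 / |(det t.1 t.2 : ℝ)| *
        ∑ q ∈ (det t.1 t.2).natAbs.divisors.filter (fun q => ¬ q ∣ M), F q ≤
      C * (Y / Real.log x ^ 2 * ∑ q ∈ Finset.Ioc q₁ ⌊x ^ (τ / 9)⌋₊, F q / Real.sqrt q +
        Y * ∑ q ∈ Finset.Ioc ⌊x ^ (τ / 9)⌋₊ ⌊2 * Y * x ^ β / (δ ^ 2 * x)⌋₊, F q / q) := by
  obtain ⟨C₁, x₁, hC₁, hPS⟩ := pair_sieve_x β τ κ hβ hτ hκ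
  obtain ⟨C₂, hC₂, hPT⟩ := pair_trivial_r
  have hκ' : 0 < 1 - β + τ := by linarith
  -- x large: 2 x^(β-1) ≤ δ²
  have e2 : ∀ᶠ x : ℝ in Filter.atTop, 2 / δ ^ 2 ≤ x ^ (1 - β) :=
    (tendsto_rpow_atTop (by linarith : 0 < 1 - β)).eventually_ge_atTop _
  obtain ⟨x₀, hx₀⟩ := Filter.eventually_atTop.mp
    ((Filter.eventually_ge_atTop x₁).and (e2.and (Filter.eventually_ge_atTop (3 : ℝ))))
  refine ⟨(2 / (δ ^ 2 * δ₁)) * C₁ + (2 / (δ ^ 2 * δ₁)) * C₂ + 1, x₀, ?_, ?_⟩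
  · have : 0 ≤ (2 / (δ ^ 2 * δ₁)) * C₁ + (2 / (δ ^ 2 * δ₁)) * C₂ := by
      positivity
    linarith
  intro x hx Y hY1 hY2 M q₁ hq₁ hM F hF
  obtain ⟨hxa, hxb, hx3⟩ := hx₀ x hx
  have hx0 : 0 < x := by linarith
  have hx1 : 1 ≤ x := by linarith
  have hlx : 0 < Real.log x := Real.log_pos (by linarith)
  have hY0 : 0 < Y := lt_of_lt_of_le (Real.rpow_pos_of_pos hx0 _) hY1
  have hY1' : 1 ≤ Y := le_trans (Real.one_le_rpow hx1 hκ'.le) hY1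
  set D₀ : ℝ := Y * x ^ β / x with hD₀
  have hxβ : 0 < x ^ β := Real.rpow_pos_of_pos hx0 _
  have hD₀pos : 0 < D₀ := by positivity
  set D₂ : ℝ := 2 * Y * x ^ β / (δ ^ 2 * x) with hD₂
  have hD₂D₀ : D₂ = 2 / δ ^ 2 * D₀ := by
    rw [hD₂, hD₀]
    field_simp
  have hD₂pos : 0 < D₂ := by positivity
  -- D₀ ≥ x^τ
  have hDτ : x ^ τ ≤ D₀ := by
    rw [hD₀, le_div_iff₀ hx0]
    calc x ^ τ * x = x ^ (1 - β + τ) * x ^ β := by
          rw [← Real.rpow_add_one hx0.ne', ← Real.rpow_add hx0]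
          congr 1
          ring
      _ ≤ Y * x ^ β := mul_le_mul_of_nonneg_right hY1 hxβ.le
  have hδ2 : δ ^ 2 ≤ 1 := pow_le_one₀ hδ.le hδ'
  have hD₂ge : D₀ ≤ D₂ := by
    rw [hD₂D₀]
    have : 1 ≤ 2 / δ ^ 2 := by
      rw [le_div_iff₀ (by positivity)]
      linarith
    nlinarith
  have hD₂τ : x ^ τ ≤ D₂ := hDτ.trans hD₂ge
  -- D₂ ≤ Y
  have hD₂Y : D₂ ≤ Y := by
    rw [hD₂, div_le_iff₀ (by positivity)]
    have h1 : 2 ≤ δ ^ 2 * x ^ (1 - β) := by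
      rw [div_le_iff₀ (by positivity)] at hxb
      linarith
    have h2 : x ^ (1 - β) * x ^ β = x := by
      rw [← Real.rpow_add hx0]
      simp
    calc 2 * Y * x ^ β ≤ (δ ^ 2 * x ^ (1 - β)) * Y * x ^ β := by
          apply mul_le_mul_of_nonneg_right _ hxβ.le
          exact mul_le_mul_of_nonneg_right h1 hY0.le
      _ = Y * (δ ^ 2 * (x ^ (1 - β) * x ^ β)) := by ring
      _ = Y * (δ ^ 2 * x) := by rw [h2]
  have hYx : Y ≤ x := by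
    refine hY2.trans ?_
    calc x ^ (1 - τ) ≤ x ^ (1 : ℝ) := Real.rpow_le_rpow_of_exponent_le hx1 (by linarith)
      _ = x := Real.rpow_one x
  have hD₂τ2 : x ^ (τ / 2) ≤ D₂ := by
    refine le_trans ?_ hD₂τ
    exact Real.rpow_le_rpow_of_exponent_le hx1 (by linarith)
  -- first bound
  have hN1 : ∀ q : ℕ, 1 ≤ q → q ≤ ⌊x ^ (τ / 9)⌋₊ →
      NR (x ^ κ) Y D₂ q ≤ (C₁ * Y * D₂ / Real.log x ^ 2) / Real.sqrt q := by
    intro q hq hqQ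
    have hqr : (q : ℝ) ≤ x ^ (τ / 9) :=
      (Nat.le_floor_iff (Real.rpow_nonneg hx0.le _)).mp hqQ
    have hq8 : (q : ℝ) ≤ D₂ ^ (1 / 8 : ℝ) := by
      refine hqr.trans ?_
      calc x ^ (τ / 9) ≤ x ^ (τ * (1 / 8)) :=
            Real.rpow_le_rpow_of_exponent_le hx1 (by linarith)
        _ = (x ^ τ) ^ (1 / 8 : ℝ) := Real.rpow_mul hx0.le _ _
        _ ≤ D₂ ^ (1 / 8 : ℝ) := Real.rpow_le_rpow (Real.rpow_nonneg hx0.le _) hD₂τ (by norm_num)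
    refine (hPS x hxa Y hY1 hYx D₂ hD₂τ2 hD₂Y q hq hq8).trans (le_of_eq ?_)
    rw [div_div, mul_comm (Real.sqrt q)]
  have hN2 : ∀ q : ℕ, 1 ≤ q → NR (x ^ κ) Y D₂ q ≤ (C₂ * Y * D₂) / q := fun q hq =>
    hPT (x ^ κ) Y D₂ q hY1' hD₂pos.le hq
  have hcard : ∀ q : ℕ, 1 ≤ q → (((((RE (x ^ κ) Y ×ˢ RE (x ^ κ) Y).filter (fun t =>
        δ₁ * D₀ ≤ |(det t.1 t.2 : ℝ)| ∧
        |(det t.1 t.2 : ℝ)| ≤ D₂))).filter
          (fun t => (q : ℤ) ∣ det t.1 t.2)).card : ℝ) ≤ NR (x ^ κ) Y D₂ q := by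
    intro q _
    unfold NR
    norm_cast
    apply Finset.card_le_card
    intro t ht
    rw [Finset.mem_filter, Finset.mem_filter] at ht
    obtain ⟨⟨ht1, ht2, ht3⟩, ht4⟩ := ht
    rw [Finset.mem_filter]
    refine ⟨ht1, ?_, ht3, ht4⟩
    intro h0
    rw [h0] at ht2
    simp at ht2
    have : 0 < δ₁ * D₀ := by positivity
    linarith
  have hmain := tr8_swap ((RE (x ^ κ) Y ×ˢ RE (x ^ κ) Y).filter (fun t =>
        δ₁ * D₀ ≤ |(det t.1 t.2 : ℝ)| ∧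
        |(det t.1 t.2 : ℝ)| ≤ D₂))
      (fun t => det t.1 t.2) (δ₁ * D₀) D₂ (by positivity) M q₁ hM F hF
      (fun q => NR (x ^ κ) Y D₂ q)
      (fun t ht => (Finset.mem_filter.mp ht).2) hcard
  refine hmain.trans ?_
  have hsp := tr8_split F (fun q => NR (x ^ κ) Y D₂ q) hF q₁ ⌊x ^ (τ / 9)⌋₊ ⌊D₂⌋₊
    (C₁ * Y * D₂ / Real.log x ^ 2) (C₂ * Y * D₂) (by positivity)
    (by positivity) hN1 hN2
  set U : ℝ := ∑ q ∈ Finset.Ioc q₁ ⌊x ^ (τ / 9)⌋₊, F q / Real.sqrt q with hU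
  set V : ℝ := ∑ q ∈ Finset.Ioc ⌊x ^ (τ / 9)⌋₊ ⌊D₂⌋₊, F q / (q : ℝ) with hV
  have hU0 : 0 ≤ U := Finset.sum_nonneg fun q _ => by
    have := hF q
    positivity
  have hV0 : 0 ≤ V := Finset.sum_nonneg fun q _ => by
    have := hF q
    positivity
  calc 1 / (δ₁ * D₀) * ∑ q ∈ Finset.Ioc q₁ ⌊D₂⌋₊, F q * NR (x ^ κ) Y D₂ q ≤
      1 / (δ₁ * D₀) * (C₁ * Y * D₂ / Real.log x ^ 2 * U +
        C₂ * Y * D₂ * V) := mul_le_mul_of_nonneg_left hsp (by positivity)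
    _ = (2 / (δ ^ 2 * δ₁)) * C₁ * (Y / Real.log x ^ 2 * U) +
        (2 / (δ ^ 2 * δ₁)) * C₂ * (Y * V) := by
        rw [hD₂D₀]
        field_simp
    _ ≤ _ := by
        have g1 : 0 ≤ Y / Real.log x ^ 2 * U := by positivity
        have g2 : 0 ≤ Y * V := by positivity
        have c1 : 0 ≤ (2 / (δ ^ 2 * δ₁)) * C₁ := by positivity
        have c2 : 0 ≤ (2 / (δ ^ 2 * δ₁)) * C₂ := by positivity
        generalize (2 / (δ ^ 2 * δ₁)) * C₁ = k1 at *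
        generalize (2 / (δ ^ 2 * δ₁)) * C₂ = k2 at *
        generalize Y / Real.log x ^ 2 * U = g at *
        generalize Y * V = g' at *
        nlinarith [mul_nonneg c2 g1, mul_nonneg c1 g2]



end Pool.Agent.TF

namespace Pool.Agent.TF

theorem mid_sum_r : type_of% @mid_sum_r_pr := @mid_sum_r_pr

end Pool.Agent.TF
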