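import Mathlib
import Pool.Agent.Lib_helper18.TR.Defs
import Pool.Agent.Lib_helper10.T2F.BAS
import Pool.Agent.Lib_helper10.T2F.PEL
import Pool.Agent.Lib_helper10.T2F.CNT
import Pool.Agent.Lib_helper10.T2F.SLW
import Pool.Agent.Lib_helper10.T2F.SLG
import Pool.Agent.Lib_helper10.T2F.MER
import Pool.Agent.Lib_helper10.T2F.DSR
import Pool.Agent.Lib_helper73.Var.LS
import Pool.Agent.Lib_helper18.TFF.I5
import Pool.Agent.Lib_helper18.TFF.I7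
import Pool.Agent.Lib_helper18.TRF.I4
import Pool.Agent.Lib_helper18.TRF.I8
import Pool.Agent.Lib_helper18.TRF.P13

set_option autoImplicit false
set_option maxHeartbeats 4000000

namespace Pool.Agent.TF

open Pool.Agent.T2

lemma tr9_big (a : ℝ) (ha : 0 < a) (K : ℝ) : ∀ᶠ x : ℝ in Filter.atTop, K ≤ x ^ a :=
  (tendsto_rpow_atTop ha).eventually_ge_atTop K

lemma tr9_log (a : ℝ) (ha : 0 < a) (K : ℝ) :
    ∀ᶠ x : ℝ in Filter.atTop, K * Real.log x ^ 2 ≤ x ^ a := by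
  have h := (isLittleO_log_rpow_rpow_atTop 2 ha).def (c := 1 / (|K| + 1)) (by positivity)
  filter_upwards [h, Filter.eventually_ge_atTop (1:ℝ)] with x hx hx1
  have h0 : (0:ℝ) ≤ x ^ a := by positivity
  rw [Real.rpow_two, Real.norm_of_nonneg (by positivity), Real.norm_of_nonneg h0] at hx
  have h2 : (0:ℝ) ≤ Real.log x ^ 2 := by positivity
  have h3 : K ≤ |K| + 1 := (le_abs_self K).trans (by linarith)
  calc K * Real.log x ^ 2 ≤ (|K| + 1) * Real.log x ^ 2 := by gcongr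
    _ ≤ x ^ a := by
      rw [div_mul_eq_mul_div, one_mul, le_div_iff₀ (by positivity)] at hx
      linarith

lemma tr9_ivl {L : ℕ} {B : ℝ} {i : ℕ} : ∀ b ∈ Ivl L B i, 1 ≤ b ∧ (b : ℝ) ≤ B := by
  intro b hb
  rw [Ivl, Finset.mem_filter, Finset.mem_Icc] at hb
  exact ⟨hb.1.1, Int.le_floor.1 hb.1.2⟩

lemma tr9_cell (L M : ℕ) (B : ℝ) (i : ℕ) (r : ℤ) :
    (Ivl L B i).filter (fun b => (M : ℤ) ∣ b - r) = Cell L M B i r := by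
  ext b
  simp only [Ivl, Cell, Finset.mem_filter, and_assoc]

lemma tr9_AA_nonneg (c : ℤ → ℝ) (I : Finset ℤ) (q : ℕ) : 0 ≤ AA c I q :=
  Finset.sum_nonneg (fun _ _ => by positivity)

open Classical in
lemma tr9_pp {δ Λ : ℝ} {f : ℝ → ℝ} (hf : Cut δ Λ f) (hδ : 0 < δ) (hΛ : 0 ≤ Λ) {σ : ℤ}
    (hσ : σ = 1 ∨ σ = -1) {x R Y B δ₁ : ℝ} (hY : 1 ≤ Y) (hYx : Y ≤ x) (hB : 1 ≤ B) (hBx : B ≤ x)
    (hδ₁ : 0 < δ₁) {c : ℤ → ℝ} (hc : Coef B c) {p p' : G} (hp : p ∈ RE R Y)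
    (hp' : p' ∈ RE R Y) (L M : ℕ) (hL : 1 ≤ L) (hM : 1 ≤ M)
    (hz : ∀ (i : ℕ) (r : ℤ), ∑ b ∈ Cell L M B i r, c b = 0)
    (h1 : δ₁ * (Y * B / x) ≤ |(det p p' : ℝ)|)
    (h2 : |(det p p' : ℝ)| ≤ B) :
    |PP f σ x Y c p p'| ≤
      L * (1 / |(det p p' : ℝ)| *
        ∑ q ∈ (det p p').natAbs.divisors.filter (fun q => ¬ q ∣ M),
          ∑ i ∈ Finset.range L, AA c (Ivl L B i) q) +
      64 * Λ * B ^ 2 / (δ₁ * L) * (1 / |(det p p' : ℝ)|) := by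
  obtain ⟨κ, hκ, hPP⟩ := pp_cells_r hf hδ hΛ hσ hY hYx hB hBx hδ₁ hc hp hp' L hL h1 h2
  have hx : 0 < x := by linarith
  have hDpos : 0 < |(det p p' : ℝ)| :=
    lt_of_lt_of_le (by positivity) h1
  have hD : det p p' ≠ 0 := by
    intro h
    rw [h] at hDpos
    simp at hDpos
  set D := det p p' with hDdef
  have hcell : ∀ i ∈ Finset.range L, ∀ i' ∈ Finset.range L,
      |∑ b ∈ Ivl L B i, ∑ b' ∈ (Ivl L B i').filter (fun b' => D ∣ b' - κ * b), c b * c b'| ≤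
      1 / (2 * |(D : ℝ)|) * (GG c (Ivl L B i) M D + GG c (Ivl L B i') M D) := by
    intro i _ i' _
    refine fourier_cell hD hκ c (Ivl L B i) (Ivl L B i') M hM ?_ ?_
    · intro r
      rw [tr9_cell]
      exact hz i r
    · intro r
      rw [tr9_cell]
      exact hz i' r
  have hsum : ∑ i ∈ Finset.range L, ∑ i' ∈ Finset.range L,
        |∑ b ∈ Ivl L B i, ∑ b' ∈ (Ivl L B i').filter (fun b' => D ∣ b' - κ * b), c b * c b'| ≤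
      ∑ i ∈ Finset.range L, ∑ i' ∈ Finset.range L,
        1 / (2 * |(D : ℝ)|) * (GG c (Ivl L B i) M D + GG c (Ivl L B i') M D) :=
    Finset.sum_le_sum (fun i hi => Finset.sum_le_sum (fun i' hi' => hcell i hi i' hi'))
  have hGG : ∑ i ∈ Finset.range L, GG c (Ivl L B i) M D =
      ∑ q ∈ D.natAbs.divisors.filter (fun q => ¬ q ∣ M),
          ∑ i ∈ Finset.range L, AA c (Ivl L B i) q := by
    rw [Finset.sum_comm]
    rfl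
  have heq : ∑ i ∈ Finset.range L, ∑ i' ∈ Finset.range L,
        1 / (2 * |(D : ℝ)|) * (GG c (Ivl L B i) M D + GG c (Ivl L B i') M D) =
      L * (1 / |(D : ℝ)| * ∑ i ∈ Finset.range L, GG c (Ivl L B i) M D) := by
    have hD' : |(D : ℝ)| ≠ 0 := hDpos.ne'
    simp only [← Finset.mul_sum, Finset.sum_add_distrib, Finset.sum_const, Finset.card_range,
      nsmul_eq_mul]
    field_simp
    ring
  rw [heq, hGG] at hsum
  have hlast : 64 * Λ * B ^ 2 / (δ₁ * L * |(D : ℝ)|) =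
      64 * Λ * B ^ 2 / (δ₁ * L) * (1 / |(D : ℝ)|) := by
    rw [div_mul_div_comm, mul_one]
  rw [hlast] at hPP
  linarith

open Classical in
theorem mid_bound_r_pr (β τ δ Λ δ₁ κ ε : ℝ) (hβ : β < 1) (hτ : 0 < τ) (hτβ : 2 * τ < β)
    (hδ : 0 < δ) (hδ' : δ ≤ 1) (hΛ : 0 ≤ Λ) (hδ₁ : 0 < δ₁) (hκ : 0 < κ) (hε : 0 < ε) :
    ∃ (L M : ℕ) (x₀ : ℝ),
    1 ≤ L ∧ 1 ≤ M ∧ ∀ x : ℝ, x₀ ≤ x → ∀ Y : ℝ, x ^ (1 - β + τ) ≤ Y → Y ≤ x ^ (1 - τ) →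
    ∀ f : ℝ → ℝ, Cut δ Λ f → ∀ σ : ℤ, (σ = 1 ∨ σ = -1) → ∀ c : ℤ → ℝ, Coef (x ^ β) c →
    (∀ (i : ℕ) (r : ℤ), ∑ b ∈ Cell L M (x ^ β) i r, c b = 0) →
    ∑ t ∈ (RE (x ^ κ) Y ×ˢ RE (x ^ κ) Y).filter (fun t =>
        δ₁ * (Y * x ^ β / x) ≤ |(det t.1 t.2 : ℝ)| ∧
        |(det t.1 t.2 : ℝ)| ≤ 2 * Y * x ^ β / (δ ^ 2 * x)),
      |PP f σ x Y c t.1 t.2| ≤ ε * Y * x ^ (2 * β) / Real.log x ^ 2 := by
  obtain ⟨C, x₁, hC, hmid⟩ := mid_sum_r β τ δ δ₁ κ hβ hτ hτβ hδ hδ' hδ₁ hκ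
  obtain ⟨C₁, hC₁, hlow⟩ := ls_low
  obtain ⟨C₂, hC₂, hhigh⟩ := ls_high
  obtain ⟨C₃, Y₀, hC₃, hps⟩ := pair_sieve_x β τ κ hβ hτ hκ
  obtain ⟨L₀, hL₀⟩ := exists_nat_ge (256 * Λ * C₃ / (δ₁ ^ 2 * δ ^ 2 * ε))
  obtain ⟨L, hLdef⟩ : ∃ L : ℕ, L = L₀ + 1 := ⟨_, rfl⟩
  have hL1 : 1 ≤ L := by omega
  have hLr : (1 : ℝ) ≤ L := by exact_mod_cast hL1
  have hLL : 256 * Λ * C₃ / (δ₁ ^ 2 * δ ^ 2 * ε) ≤ L := by
    refine hL₀.trans ?_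
    rw [hLdef]
    push_cast
    linarith
  obtain ⟨m₀, hm₀⟩ := exists_nat_ge ((8 * L ^ 2 * C * C₁ / ε) ^ 2)
  obtain ⟨q₁, hqdef⟩ : ∃ q₁ : ℕ, q₁ = m₀ + 1 := ⟨_, rfl⟩
  have hq1 : 1 ≤ q₁ := by omega
  have hqq : 8 * L ^ 2 * C * C₁ / ε ≤ Real.sqrt q₁ := by
    refine Real.le_sqrt_of_sq_le (hm₀.trans ?_)
    rw [hqdef]
    push_cast
    linarith
  have hev := (Filter.eventually_ge_atTop (3 : ℝ)).and ((Filter.eventually_ge_atTop x₁).and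
    ((tr9_big τ hτ (2 / δ ^ 2)).and ((tr9_big (1 - β) (by linarith) (2 / δ ^ 2)).and
    ((Filter.eventually_ge_atTop Y₀).and ((tr9_big τ hτ (8 * L ^ 2 * C * C₁ / ε)).and
    ((tr9_log (τ / 9) (by positivity) (16 * L ^ 2 * C * C₂ / ε)).and
    (tr9_log τ hτ (8 * L ^ 2 * C * C₂ / ε * (2 / δ ^ 2)))))))))
  obtain ⟨x₀, hx₀⟩ := Filter.eventually_atTop.1 hev
  refine ⟨L, q₁.factorial, x₀, hL1, Nat.factorial_pos _, ?_⟩
  intro x hx Y hY1 hY2 f hf σ hσ c hc hz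
  obtain ⟨hx3, hxx1, e3, e4, e5, e6, e7, e8⟩ := hx₀ x hx
  have hx0 : 0 < x := by linarith
  have hx1 : 1 ≤ x := by linarith
  have hlogx : 0 < Real.log x := Real.log_pos (by linarith)
  obtain ⟨B, hBdef⟩ : ∃ B : ℝ, B = x ^ β := ⟨_, rfl⟩
  have hB2 : x ^ (2 * β) = B ^ 2 := by
    rw [hBdef, ← Real.rpow_natCast, ← Real.rpow_mul hx0.le]
    congr 1
    push_cast
    ring
  rw [hB2]
  rw [← hBdef] at hc hz ⊢
  have hβ0 : 0 < β := by linarith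
  have hB1 : 1 ≤ B := by
    rw [hBdef]
    exact Real.one_le_rpow hx1 hβ0.le
  have hB0 : 0 < B := by linarith
  have hBx : B ≤ x := by
    rw [hBdef]
    calc x ^ β ≤ x ^ (1 : ℝ) := Real.rpow_le_rpow_of_exponent_le hx1 hβ.le
      _ = x := Real.rpow_one x
  have hxτ1 : 1 ≤ x ^ τ := Real.one_le_rpow hx1 hτ.le
  have hYτ : x ^ τ ≤ Y := by
    refine le_trans (Real.rpow_le_rpow_of_exponent_le hx1 ?_) hY1
    linarith
  have hY1' : 1 ≤ Y := hxτ1.trans hYτ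
  have hY0 : 0 < Y := by linarith
  have hYx : Y ≤ x := by
    refine hY2.trans ?_
    calc x ^ (1 - τ) ≤ x ^ (1 : ℝ) := Real.rpow_le_rpow_of_exponent_le hx1 (by linarith)
      _ = x := Real.rpow_one x
  -- D₀ = Y B / x
  obtain ⟨D₀, hD₀⟩ : ∃ D₀ : ℝ, D₀ = Y * B / x := ⟨_, rfl⟩
  have hD₀low : x ^ τ ≤ D₀ := by
    rw [hD₀, le_div_iff₀ hx0]
    have h := mul_le_mul_of_nonneg_right hY1 hB0.le
    have h' : x ^ (1 - β + τ) * B = x ^ τ * x := by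
      have h3 : x ^ τ * x = x ^ (τ + 1) := by
        rw [Real.rpow_add hx0, Real.rpow_one]
      rw [hBdef, ← Real.rpow_add hx0, h3]
      congr 1
      ring
    linarith
  have hD₀up : D₀ * x ^ τ ≤ B := by
    rw [hD₀]
    have h : Y * x ^ τ ≤ x := by
      calc Y * x ^ τ ≤ x ^ (1 - τ) * x ^ τ := by gcongr
        _ = x := by
          rw [← Real.rpow_add hx0]
          simp
    rw [div_mul_eq_mul_div, div_le_iff₀ hx0]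
    calc Y * B * x ^ τ = (Y * x ^ τ) * B := by ring
      _ ≤ x * B := by gcongr
      _ = B * x := by ring
  have hD₀pos : 0 < D₀ := by linarith
  have hδ2 : 0 < δ ^ 2 := by positivity
  obtain ⟨D₂, hD₂⟩ : ∃ D₂ : ℝ, D₂ = 2 * Y * B / (δ ^ 2 * x) := ⟨_, rfl⟩
  have hD₂' : D₂ = 2 / δ ^ 2 * D₀ := by
    rw [hD₂, hD₀]
    field_simp
  have h2δ : 2 ≤ 2 / δ ^ 2 := by
    rw [le_div_iff₀ hδ2]
    have : δ ^ 2 ≤ 1 := by
      rw [sq_le_one_iff₀ hδ.le]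
      exact hδ'
    linarith
  have hD₂low : D₀ ≤ D₂ := by
    rw [hD₂']
    nlinarith
  have hD₂B : D₂ ≤ B := by
    rw [hD₂']
    calc 2 / δ ^ 2 * D₀ ≤ x ^ τ * D₀ := by gcongr
      _ = D₀ * x ^ τ := by ring
      _ ≤ B := hD₀up
  have hD₂Y : D₂ ≤ Y := by
    have h : 2 / δ ^ 2 * B ≤ x := by
      calc 2 / δ ^ 2 * B ≤ x ^ (1 - β) * B := by gcongr
        _ = x := by
          rw [hBdef, ← Real.rpow_add hx0]
          simp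
    rw [hD₂', hD₀]
    rw [mul_div_assoc', div_le_iff₀ hx0]
    calc 2 / δ ^ 2 * (Y * B) = Y * (2 / δ ^ 2 * B) := by ring
      _ ≤ Y * x := by gcongr
  rw [← hD₀, ← hD₂]
  -- the set
  obtain ⟨T, hT⟩ : ∃ T : Finset (G × G), T = (RE (x ^ κ) Y ×ˢ RE (x ^ κ) Y).filter (fun t =>
        δ₁ * D₀ ≤ |(det t.1 t.2 : ℝ)| ∧
        |(det t.1 t.2 : ℝ)| ≤ D₂) := ⟨_, rfl⟩
  rw [← hT]
  have hmem : ∀ t ∈ T, (t.1 ∈ RE (x ^ κ) Y ∧ t.2 ∈ RE (x ^ κ) Y) ∧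
      δ₁ * D₀ ≤ |(det t.1 t.2 : ℝ)| ∧
        |(det t.1 t.2 : ℝ)| ≤ D₂ := by
    intro t ht
    rw [hT, Finset.mem_filter, Finset.mem_product] at ht
    exact ht
  have hterm : ∀ t ∈ T, |PP f σ x Y c t.1 t.2| ≤
      L * (1 / |(det t.1 t.2 : ℝ)| *
        ∑ q ∈ (det t.1 t.2).natAbs.divisors.filter (fun q => ¬ q ∣ q₁.factorial),
          ∑ i ∈ Finset.range L, AA c (Ivl L B i) q) +
      64 * Λ * B ^ 2 / (δ₁ * L) * (1 / |(det t.1 t.2 : ℝ)|) := by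
    intro t ht
    obtain ⟨⟨hp, hp'⟩, h1, h2⟩ := hmem t ht
    refine tr9_pp hf hδ hΛ hσ hY1' hYx hB1 hBx hδ₁ hc hp hp' L q₁.factorial hL1
      (Nat.factorial_pos _) hz ?_ (h2.trans hD₂B)
    rw [← hD₀]
    exact h1
  have hmidx := hmid x hxx1 Y hY1 hY2 q₁.factorial q₁ hq1
    (fun q hq hnd => by
      by_contra hcon
      exact hnd (Nat.dvd_factorial (by omega) (by omega)))
    (fun q => ∑ i ∈ Finset.range L, AA c (Ivl L B i) q)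
    (fun q => Finset.sum_nonneg (fun i _ => tr9_AA_nonneg _ _ _))
  rw [← hBdef, ← hD₀, ← hD₂, ← hT] at hmidx
  obtain ⟨Q₁, hQ₁⟩ : ∃ Q₁ : ℕ, Q₁ = ⌊x ^ (τ / 9)⌋₊ := ⟨_, rfl⟩
  obtain ⟨Q₂, hQ₂⟩ : ∃ Q₂ : ℕ, Q₂ = ⌊D₂⌋₊ := ⟨_, rfl⟩
  rw [← hQ₁, ← hQ₂] at hmidx
  have hxτ9 : 1 ≤ x ^ (τ / 9) := Real.one_le_rpow hx1 (by positivity)
  have hQ₁1 : 1 ≤ Q₁ := by
    rw [hQ₁]
    exact Nat.one_le_floor_iff _ |>.2 hxτ9
  have hQ₂1 : 1 ≤ Q₂ := by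
    rw [hQ₂]
    exact Nat.one_le_floor_iff _ |>.2 (by linarith)
  have hQ₁up : (Q₁ : ℝ) ≤ x ^ (τ / 9) := by
    rw [hQ₁]
    exact Nat.floor_le (by positivity)
  have hQ₂up : (Q₂ : ℝ) ≤ D₂ := by
    rw [hQ₂]
    exact Nat.floor_le (by linarith)
  have hQ₁r : (1 : ℝ) ≤ Q₁ := by exact_mod_cast hQ₁1
  have hQ₁low : x ^ (τ / 9) ≤ 2 * Q₁ := by
    have h : x ^ (τ / 9) < Q₁ + 1 := by
      rw [hQ₁]
      exact Nat.lt_floor_add_one _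
    linarith
  have hS1 : ∑ q ∈ Finset.Ioc q₁ Q₁, (∑ i ∈ Finset.range L, AA c (Ivl L B i) q) / Real.sqrt q ≤
      L * (C₁ * (B ^ 2 / Real.sqrt q₁ + (Q₁ : ℝ) ^ 2 * B)) := by
    have h : ∑ q ∈ Finset.Ioc q₁ Q₁, (∑ i ∈ Finset.range L, AA c (Ivl L B i) q) / Real.sqrt q =
        ∑ i ∈ Finset.range L, ∑ q ∈ Finset.Ioc q₁ Q₁, AA c (Ivl L B i) q / Real.sqrt q := by
      rw [Finset.sum_comm]
      exact Finset.sum_congr rfl (fun q _ => Finset.sum_div _ _ _)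
    rw [h]
    have h2 : ∀ i ∈ Finset.range L, ∑ q ∈ Finset.Ioc q₁ Q₁, AA c (Ivl L B i) q / Real.sqrt q ≤
        C₁ * (B ^ 2 / Real.sqrt q₁ + (Q₁ : ℝ) ^ 2 * B) :=
      fun i _ => hlow c B (Ivl L B i) q₁ Q₁ hB1 hq1 hQ₁1 hc.1 tr9_ivl
    refine (Finset.sum_le_sum h2).trans (le_of_eq ?_)
    rw [Finset.sum_const, Finset.card_range, nsmul_eq_mul]
  have hS2 : ∑ q ∈ Finset.Ioc Q₁ Q₂, (∑ i ∈ Finset.range L, AA c (Ivl L B i) q) / (q : ℝ) ≤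
      L * (C₂ * (B ^ 2 / Q₁ + Q₂ * B)) := by
    have h : ∑ q ∈ Finset.Ioc Q₁ Q₂, (∑ i ∈ Finset.range L, AA c (Ivl L B i) q) / (q : ℝ) =
        ∑ i ∈ Finset.range L, ∑ q ∈ Finset.Ioc Q₁ Q₂, AA c (Ivl L B i) q / (q : ℝ) := by
      rw [Finset.sum_comm]
      exact Finset.sum_congr rfl (fun q _ => Finset.sum_div _ _ _)
    rw [h]
    have h2 : ∀ i ∈ Finset.range L, ∑ q ∈ Finset.Ioc Q₁ Q₂, AA c (Ivl L B i) q / (q : ℝ) ≤
        C₂ * (B ^ 2 / Q₁ + Q₂ * B) :=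
      fun i _ => hhigh c B (Ivl L B i) Q₁ Q₂ hB1 hQ₁1 hQ₂1 hc.1 tr9_ivl
    refine (Finset.sum_le_sum h2).trans (le_of_eq ?_)
    rw [Finset.sum_const, Finset.card_range, nsmul_eq_mul]
  -- the number of pairs
  have hcard : (T.card : ℝ) ≤ C₃ * Y * D₂ / Real.log x ^ 2 := by
    have h1 : (T.card : ℝ) ≤ NR (x ^ κ) Y D₂ 1 := by
      unfold NR
      have : T ⊆ (RE (x ^ κ) Y ×ˢ RE (x ^ κ) Y).filter (fun t =>
        det t.1 t.2 ≠ 0 ∧ |(det t.1 t.2 : ℝ)| ≤ D₂ ∧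
          ((1 : ℕ) : ℤ) ∣ det t.1 t.2) := by
        intro t ht
        obtain ⟨⟨hp, hp'⟩, h1, h2⟩ := hmem t ht
        rw [Finset.mem_filter, Finset.mem_product]
        refine ⟨⟨hp, hp'⟩, ?_, h2, ?_⟩
        · intro h0
          rw [h0] at h1
          simp only [Int.cast_zero, abs_zero] at h1
          have : 0 < δ₁ * D₀ := by positivity
          linarith
        · simp
      exact_mod_cast Finset.card_le_card this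
    have h2 := hps x e5 Y hY1 hYx D₂ ?_ hD₂Y 1 le_rfl ?_
    · simp only [Nat.cast_one, Real.sqrt_one, one_mul] at h2
      exact h1.trans h2
    · refine le_trans (Real.rpow_le_rpow_of_exponent_le hx1 ?_) (hD₀low.trans hD₂low)
      linarith
    · simp only [Nat.cast_one]
      exact Real.one_le_rpow (by linarith) (by norm_num)
  have hinv : ∑ t ∈ T, 1 / |(det t.1 t.2 : ℝ)| ≤
      2 * C₃ * Y / (δ₁ * δ ^ 2 * Real.log x ^ 2) := by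
    have h1 : ∀ t ∈ T, 1 / |(det t.1 t.2 : ℝ)| ≤ 1 / (δ₁ * D₀) := by
      intro t ht
      obtain ⟨-, h1, -⟩ := hmem t ht
      exact one_div_le_one_div_of_le (by positivity) h1
    refine (Finset.sum_le_sum h1).trans ?_
    rw [Finset.sum_const, nsmul_eq_mul]
    calc (T.card : ℝ) * (1 / (δ₁ * D₀)) ≤ C₃ * Y * D₂ / Real.log x ^ 2 * (1 / (δ₁ * D₀)) := by
          gcongr
      _ = 2 * C₃ * Y / (δ₁ * δ ^ 2 * Real.log x ^ 2) := by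
          rw [hD₂']
          field_simp
  -- assembly
  have hmain : ∑ t ∈ T, |PP f σ x Y c t.1 t.2| ≤
      L * (C * (Y / Real.log x ^ 2 * (L * (C₁ * (B ^ 2 / Real.sqrt q₁ + (Q₁ : ℝ) ^ 2 * B))) +
        Y * (L * (C₂ * (B ^ 2 / Q₁ + Q₂ * B))))) +
      64 * Λ * B ^ 2 / (δ₁ * L) * (2 * C₃ * Y / (δ₁ * δ ^ 2 * Real.log x ^ 2)) := by
    refine (Finset.sum_le_sum hterm).trans ?_
    rw [Finset.sum_add_distrib, ← Finset.mul_sum, ← Finset.mul_sum]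
    refine add_le_add ?_ ?_
    · refine mul_le_mul_of_nonneg_left (hmidx.trans ?_) (by positivity)
      refine mul_le_mul_of_nonneg_left ?_ (by linarith)
      refine add_le_add ?_ ?_
      · exact mul_le_mul_of_nonneg_left hS1 (by positivity)
      · exact mul_le_mul_of_nonneg_left hS2 (by positivity)
    · exact mul_le_mul_of_nonneg_left hinv (by positivity)
  refine hmain.trans ?_
  have hl2 : 0 < Real.log x ^ 2 := by positivity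
  have hC0 : 0 < C := by linarith
  have hC₁0 : 0 < C₁ := by linarith
  have hC₂0 : 0 < C₂ := by linarith
  have hsq : 0 < Real.sqrt q₁ := Real.sqrt_pos.2 (by exact_mod_cast hq1)
  -- four small quantities
  have a1 : L ^ 2 * C * C₁ / Real.sqrt q₁ ≤ ε / 8 := by
    rw [div_le_iff₀ hsq]
    rw [div_le_iff₀ hε] at hqq
    linarith
  have a2 : L ^ 2 * C * C₁ * (Q₁ : ℝ) ^ 2 ≤ ε / 8 * B := by
    have h1 : (Q₁ : ℝ) ^ 2 ≤ x ^ τ := by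
      calc (Q₁ : ℝ) ^ 2 ≤ (x ^ (τ / 9)) ^ 2 := by gcongr
        _ = x ^ (τ / 9 * 2) := by
          rw [← Real.rpow_natCast, ← Real.rpow_mul hx0.le]
          norm_num
        _ ≤ x ^ τ := Real.rpow_le_rpow_of_exponent_le hx1 (by linarith)
    have h2 : x ^ τ * x ^ τ ≤ B := by
      rw [hBdef, ← Real.rpow_add hx0]
      exact Real.rpow_le_rpow_of_exponent_le hx1 (by linarith)
    rw [div_le_iff₀ hε] at e6
    have h3 : L ^ 2 * C * C₁ ≤ ε / 8 * x ^ τ := by linarith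
    calc L ^ 2 * C * C₁ * (Q₁ : ℝ) ^ 2 ≤ (ε / 8 * x ^ τ) * x ^ τ := by gcongr
      _ = ε / 8 * (x ^ τ * x ^ τ) := by ring
      _ ≤ ε / 8 * B := by gcongr
  have a3 : L ^ 2 * C * C₂ * Real.log x ^ 2 ≤ ε / 8 * Q₁ := by
    rw [div_mul_eq_mul_div, div_le_iff₀ hε] at e7
    nlinarith [mul_le_mul_of_nonneg_right hQ₁low hε.le]
  have a4 : L ^ 2 * C * C₂ * Real.log x ^ 2 * Q₂ ≤ ε / 8 * B := by
    have h1 : L ^ 2 * C * C₂ * (2 / δ ^ 2) * Real.log x ^ 2 ≤ ε / 8 * x ^ τ := by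
      have : 8 * L ^ 2 * C * C₂ / ε * (2 / δ ^ 2) * Real.log x ^ 2 =
        (8 * (L ^ 2 * C * C₂ * (2 / δ ^ 2) * Real.log x ^ 2)) / ε := by ring
      rw [this, div_le_iff₀ hε] at e8
      linarith
    calc L ^ 2 * C * C₂ * Real.log x ^ 2 * Q₂ ≤
        L ^ 2 * C * C₂ * Real.log x ^ 2 * (2 / δ ^ 2 * D₀) := by
          rw [← hD₂']
          gcongr
      _ = (L ^ 2 * C * C₂ * (2 / δ ^ 2) * Real.log x ^ 2) * D₀ := by ring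
      _ ≤ (ε / 8 * x ^ τ) * D₀ := by gcongr
      _ = ε / 8 * (D₀ * x ^ τ) := by ring
      _ ≤ ε / 8 * B := by gcongr
  have a5 : 128 * Λ * C₃ / (δ₁ ^ 2 * δ ^ 2 * L) ≤ ε / 2 := by
    rw [div_le_iff₀ (by positivity)] at hLL ⊢
    linarith
  have key : L * (C * (Y / Real.log x ^ 2 *
        (L * (C₁ * (B ^ 2 / Real.sqrt q₁ + (Q₁ : ℝ) ^ 2 * B))) +
        Y * (L * (C₂ * (B ^ 2 / Q₁ + Q₂ * B))))) +
      64 * Λ * B ^ 2 / (δ₁ * L) * (2 * C₃ * Y / (δ₁ * δ ^ 2 * Real.log x ^ 2)) =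
      Y / Real.log x ^ 2 * ((L ^ 2 * C * C₁ / Real.sqrt q₁) * B ^ 2 +
        (L ^ 2 * C * C₁ * (Q₁ : ℝ) ^ 2) * B + (L ^ 2 * C * C₂ * Real.log x ^ 2) * B ^ 2 / Q₁ +
        (L ^ 2 * C * C₂ * Real.log x ^ 2 * Q₂) * B +
        (128 * Λ * C₃ / (δ₁ ^ 2 * δ ^ 2 * L)) * B ^ 2) := by
    field_simp
    ring
  rw [key]
  have b3 : (L ^ 2 * C * C₂ * Real.log x ^ 2) * B ^ 2 / Q₁ ≤ ε / 8 * B ^ 2 := by
    rw [div_le_iff₀ (by linarith)]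
    calc (L ^ 2 * C * C₂ * Real.log x ^ 2) * B ^ 2 ≤ (ε / 8 * Q₁) * B ^ 2 := by gcongr
      _ = ε / 8 * B ^ 2 * Q₁ := by ring
  have b1 : (L ^ 2 * C * C₁ / Real.sqrt q₁) * B ^ 2 ≤ ε / 8 * B ^ 2 := by gcongr
  have b2 : (L ^ 2 * C * C₁ * (Q₁ : ℝ) ^ 2) * B ≤ ε / 8 * B ^ 2 := by
    calc (L ^ 2 * C * C₁ * (Q₁ : ℝ) ^ 2) * B ≤ (ε / 8 * B) * B := by gcongr
      _ = ε / 8 * B ^ 2 := by ring
  have b4 : (L ^ 2 * C * C₂ * Real.log x ^ 2 * Q₂) * B ≤ ε / 8 * B ^ 2 := by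
    calc (L ^ 2 * C * C₂ * Real.log x ^ 2 * Q₂) * B ≤ (ε / 8 * B) * B := by gcongr
      _ = ε / 8 * B ^ 2 := by ring
  have b5 : (128 * Λ * C₃ / (δ₁ ^ 2 * δ ^ 2 * L)) * B ^ 2 ≤ ε / 2 * B ^ 2 := by gcongr
  calc Y / Real.log x ^ 2 * ((L ^ 2 * C * C₁ / Real.sqrt q₁) * B ^ 2 +
        (L ^ 2 * C * C₁ * (Q₁ : ℝ) ^ 2) * B + (L ^ 2 * C * C₂ * Real.log x ^ 2) * B ^ 2 / Q₁ +
        (L ^ 2 * C * C₂ * Real.log x ^ 2 * Q₂) * B +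
        (128 * Λ * C₃ / (δ₁ ^ 2 * δ ^ 2 * L)) * B ^ 2)
      ≤ Y / Real.log x ^ 2 * (ε * B ^ 2) := by
        refine mul_le_mul_of_nonneg_left ?_ (by positivity)
        linarith
    _ = ε * Y * B ^ 2 / Real.log x ^ 2 := by ring



end Pool.Agent.TF

namespace Pool.Agent.TF

theorem mid_bound_r : type_of% @mid_bound_r_pr := @mid_bound_r_pr

end Pool.Agent.TF
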