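import Mathlib
import Pool.Agent.Lib_helper18.TR.Defs
import Pool.Agent.Lib_helper10.T2F.BAS
import Pool.Agent.Lib_helper10.T2F.PEL
import Pool.Agent.Lib_helper10.T2F.CNT
import Pool.Agent.Lib_helper10.T2F.SLW
import Pool.Agent.Lib_helper10.T2F.SLG
import Pool.Agent.Lib_helper10.T2F.MER
import Pool.Agent.Lib_helper10.T2F.DSR
import Pool.Agent.Lib_helper73.Var.LS
import Pool.Agent.Lib_helper18.TRF.I3
import Pool.Agent.Lib_helper18.TRF.I9
import Pool.Agent.Lib_helper18.TRF.P13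

/-!
# Project E2, block I10: the sum of squares, rough elements
-/

set_option autoImplicit false

namespace Pool.Agent.TF

open Pool.Agent.T2

theorem tr10_sq (P : Finset G) (Z : Finset G) (om : G → ℝ) (hom : ∀ p, |om p| ≤ 1)
    (a : G → G → ℝ) :
    ∑ z ∈ Z, (∑ p ∈ P, om p * a p z) ^ 2 ≤ ∑ t ∈ P ×ˢ P, |∑ z ∈ Z, a t.1 z * a t.2 z| := by
  have h1 : ∀ z, (∑ p ∈ P, om p * a p z) ^ 2 =
      ∑ t ∈ P ×ˢ P, om t.1 * om t.2 * (a t.1 z * a t.2 z) := by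
    intro z
    rw [sq, Finset.sum_mul_sum, ← Finset.sum_product']
    exact Finset.sum_congr rfl fun t _ => by ring
  simp only [h1]
  rw [Finset.sum_comm]
  refine Finset.sum_le_sum fun t _ => ?_
  rw [← Finset.mul_sum]
  refine (le_abs_self _).trans ?_
  rw [abs_mul, abs_mul]
  have h2 : |om t.1| * |om t.2| ≤ 1 := mul_le_one₀ (hom _) (abs_nonneg _) (hom _)
  calc |om t.1| * |om t.2| * |∑ z ∈ Z, a t.1 z * a t.2 z| ≤
        1 * |∑ z ∈ Z, a t.1 z * a t.2 z| := mul_le_mul_of_nonneg_right h2 (abs_nonneg _)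
    _ = _ := one_mul _

theorem tr10_card {C R Y : ℝ} (hY : 1 ≤ Y) (hC : ∀ x : ℝ, 0 ≤ x → ((Bl x).card : ℝ) ≤ C * x) :
    ((RE R Y).card : ℝ) ≤ C * (2 * Y) := by
  classical
  refine le_trans ?_ (hC (2 * Y) (by linarith))
  have h : RE R Y ⊆ Bl (2 * Y) := fun u hu => (Finset.mem_filter.1 hu).1
  exact_mod_cast Finset.card_le_card h

open Classical in
/-- the decomposition of the sum over the pairs -/
theorem tr10_split (P : Finset (G × G)) (F : G × G → ℝ) (d : G × G → ℤ) {K D₁ D₂ : ℝ}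
    (hK : 0 ≤ K) (hF : ∀ t ∈ P, |F t| ≤ K) (hfar : ∀ t ∈ P, D₂ < |(d t : ℝ)| → F t = 0) :
    ∑ t ∈ P, |F t| ≤ K * ((P.filter (fun t => d t = 0)).card : ℝ) +
      K * ((P.filter (fun t => d t ≠ 0 ∧ |(d t : ℝ)| ≤ D₁ ∧ ((1 : ℕ) : ℤ) ∣ d t)).card : ℝ) +
      ∑ t ∈ P.filter (fun t => D₁ ≤ |(d t : ℝ)| ∧ |(d t : ℝ)| ≤ D₂), |F t| := by
  have h1 : ∀ t ∈ P, |F t| ≤ (if d t = 0 then K else 0) +
      (if d t ≠ 0 ∧ |(d t : ℝ)| ≤ D₁ ∧ ((1 : ℕ) : ℤ) ∣ d t then K else 0) +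
      (if D₁ ≤ |(d t : ℝ)| ∧ |(d t : ℝ)| ≤ D₂ then |F t| else 0) := by
    intro t ht
    have a1 : (0 : ℝ) ≤ if d t = 0 then K else 0 := by split_ifs <;> linarith
    have a2 : (0 : ℝ) ≤ if d t ≠ 0 ∧ |(d t : ℝ)| ≤ D₁ ∧ ((1 : ℕ) : ℤ) ∣ d t then K else 0 := by
      split_ifs <;> linarith
    have a3 : (0 : ℝ) ≤ if D₁ ≤ |(d t : ℝ)| ∧ |(d t : ℝ)| ≤ D₂ then |F t| else 0 := by
      split_ifs
      · exact abs_nonneg _
      · exact le_rfl
    by_cases h2 : d t = 0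
    · have h3 : (if d t = 0 then K else 0) = K := if_pos h2
      have h4 := hF t ht
      linarith
    by_cases h3 : |(d t : ℝ)| ≤ D₁
    · have h4 : (if d t ≠ 0 ∧ |(d t : ℝ)| ≤ D₁ ∧ ((1 : ℕ) : ℤ) ∣ d t then K else 0) = K :=
        if_pos ⟨h2, h3, by rw [Nat.cast_one]; exact one_dvd _⟩
      have h5 := hF t ht
      linarith
    by_cases h4 : |(d t : ℝ)| ≤ D₂
    · have h5 : (if D₁ ≤ |(d t : ℝ)| ∧ |(d t : ℝ)| ≤ D₂ then |F t| else 0) = |F t| :=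
        if_pos ⟨(not_le.1 h3).le, h4⟩
      linarith
    · have h5 : |F t| = 0 := by rw [hfar t ht (not_le.1 h4), abs_zero]
      linarith
  refine (Finset.sum_le_sum h1).trans (le_of_eq ?_)
  rw [Finset.sum_add_distrib, Finset.sum_add_distrib, ← Finset.sum_filter, ← Finset.sum_filter,
    ← Finset.sum_filter, Finset.sum_const, Finset.sum_const, nsmul_eq_mul, nsmul_eq_mul]
  ring

open Classical in
theorem tt_bound_r_pr (β τ δ Λ κ ε : ℝ) (hβ : β < 1) (hτ : 0 < τ) (hτβ : 2 * τ < β) (hδ : 0 < δ)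
    (hδ' : δ ≤ 1) (hΛ : 0 ≤ Λ) (hκ : 0 < κ) (hε : 0 < ε) : ∃ (L M : ℕ) (x₀ : ℝ),
    1 ≤ L ∧ 1 ≤ M ∧ ∀ x : ℝ, x₀ ≤ x → ∀ Y : ℝ, x ^ (1 - β + τ) ≤ Y → Y ≤ x ^ (1 - τ) →
    ∀ f : ℝ → ℝ, Cut δ Λ f → ∀ a : G → ℝ, (∀ u, |a u| ≤ 1) → ∀ σ : ℤ, (σ = 1 ∨ σ = -1) →
    ∀ c : ℤ → ℝ, Coef (x ^ β) c → (∀ (i : ℕ) (r : ℤ), ∑ b ∈ Cell L M (x ^ β) i r, c b = 0) →
      TTR f a σ x (x ^ κ) Y c ≤ ε * Y * x ^ (2 * β) / Real.log x ^ 2 := by
  obtain ⟨C, x₂, hC, hps⟩ := pair_sieve_x β τ κ hβ hτ hκ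
  obtain ⟨Cb, hCb, hball⟩ := ball_le
  have hν : 0 < 1 - β + τ := by linarith
  have hC0 : 0 < C := by linarith
  have hCb0 : 0 < Cb := by linarith
  obtain ⟨δ₁, hδ₁, hδ₁1, hδ₁2⟩ : ∃ δ₁ : ℝ, 0 < δ₁ ∧ δ₁ ≤ 1 ∧ 24 * C * δ₁ ≤ ε := by
    refine ⟨min 1 (ε / (24 * C)), lt_min one_pos (by positivity), min_le_left _ _, ?_⟩
    calc 24 * C * min 1 (ε / (24 * C)) ≤ 24 * C * (ε / (24 * C)) :=
          mul_le_mul_of_nonneg_left (min_le_right _ _) (by positivity)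
      _ = ε := by field_simp
  obtain ⟨L, M, x₀, hL, hM, hmid⟩ := mid_bound_r β τ δ Λ δ₁ κ (ε / 3) hβ hτ hτβ hδ hδ' hΛ hδ₁ hκ
    (by positivity)
  -- large `x`
  have e2 : ∀ᶠ x : ℝ in Filter.atTop, 1 / δ₁ ≤ x ^ (τ / 2) :=
    (tendsto_rpow_atTop (half_pos hτ)).eventually_ge_atTop _
  have e3 : ∀ᶠ x : ℝ in Filter.atTop, ‖Real.log x‖ ≤ Real.sqrt (ε / (48 * Cb)) * ‖x ^ (τ / 2)‖ :=
    (isLittleO_log_rpow_atTop (half_pos hτ)).bound (Real.sqrt_pos.2 (by positivity))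
  obtain ⟨x₁, hx₁⟩ := Filter.eventually_atTop.1
    ((Filter.eventually_ge_atTop x₂).and (e2.and e3))
  refine ⟨L, M, max x₀ (max x₁ 3), hL, hM, fun x hx Y hY1 hY2 f hf om hom σ hσ c hc hcell => ?_⟩
  have hxx₀ : x₀ ≤ x := (le_max_left _ _).trans hx
  have hxx₁ : x₁ ≤ x := (le_max_left _ _).trans ((le_max_right _ _).trans hx)
  have hx3 : 3 ≤ x := (le_max_right _ _).trans ((le_max_right _ _).trans hx)
  obtain ⟨g1, g2, g3⟩ := hx₁ x hxx₁
  have hx0 : 0 < x := by linarith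
  have hx1 : 1 ≤ x := by linarith
  have hB0 : 0 < x ^ β := Real.rpow_pos_of_pos hx0 _
  have hlog : 1 ≤ Real.log x := by
    rw [Real.le_log_iff_exp_le hx0]
    have := Real.exp_one_lt_d9
    linarith
  have hlog0 : 0 < Real.log x := by linarith
  have hYκ : 1 ≤ x ^ (1 - β + τ) := Real.one_le_rpow hx1 hν.le
  have hY : 1 ≤ Y := hYκ.trans hY1
  have hY0 : 0 < Y := by linarith
  have hYx : Y ≤ x := by
    refine hY2.trans ?_
    calc x ^ (1 - τ) ≤ x ^ (1 : ℝ) := Real.rpow_le_rpow_of_exponent_le hx1 (by linarith)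
      _ = x := Real.rpow_one x
  have hBB : x ^ (2 * β) = x ^ β * x ^ β := by
    rw [← Real.rpow_add hx0]
    congr 1
    ring
  -- `x ^ τ ≤ Y x ^ β / x`
  have hD0 : x * x ^ τ ≤ Y * x ^ β := by
    calc x * x ^ τ = x ^ (1 - β + τ) * x ^ β := by
          rw [← Real.rpow_add hx0]
          conv_lhs => rw [← Real.rpow_one x, ← Real.rpow_mul hx0.le, one_mul]
          rw [← Real.rpow_add hx0]
          congr 1
          ring
      _ ≤ Y * x ^ β := mul_le_mul_of_nonneg_right hY1 hB0.le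
  have hD0' : x ^ τ ≤ Y * x ^ β / x := by
    rw [le_div_iff₀ hx0]
    linarith
  have hlogsq : 48 * Cb * Real.log x ^ 2 ≤ ε * x ^ τ := by
    rw [Real.norm_of_nonneg hlog0.le, Real.norm_of_nonneg (Real.rpow_nonneg hx0.le _)] at g3
    have h1 : Real.log x ^ 2 ≤ (Real.sqrt (ε / (48 * Cb)) * x ^ (τ / 2)) ^ 2 :=
      pow_le_pow_left₀ hlog0.le g3 2
    rw [mul_pow, Real.sq_sqrt (by positivity)] at h1
    have h2 : (x ^ (τ / 2)) ^ 2 = x ^ τ := by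
      rw [sq, ← Real.rpow_add hx0]
      congr 1
      ring
    rw [h2, div_mul_eq_mul_div, le_div_iff₀ (by positivity)] at h1
    linarith
  -- the sum over the pairs
  set K : ℝ := 8 * x * x ^ β / Y with hK
  have hK0 : 0 ≤ K := by positivity
  have h1 : TTR f om σ x (x ^ κ) Y c ≤ ∑ t ∈ RE (x ^ κ) Y ×ˢ RE (x ^ κ) Y,
      |PP f σ x Y c t.1 t.2| :=
    tr10_sq (RE (x ^ κ) Y) (Bl (2 * x ^ 2 / Y)) om hom
      (fun p z => c (σ * (p * z).im) * f (((p * z).re : ℝ) / x))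
  have h2 := tr10_split (RE (x ^ κ) Y ×ˢ RE (x ^ κ) Y)
    (fun t => PP f σ x Y c t.1 t.2) (fun t => det t.1 t.2)
    (D₁ := δ₁ * (Y * x ^ β / x)) (D₂ := 2 * Y * x ^ β / (δ ^ 2 * x)) hK0
    (fun t ht => pp_trivial_r hf hδ hσ hY hYx hB0.le hc (Finset.mem_product.1 ht).1)
    (fun t ht h => pp_far_r hf hδ hσ hY hYx hB0.le hc (Finset.mem_product.1 ht).1
      (Finset.mem_product.1 ht).2 h)
  have h3 := hmid x hxx₀ Y hY1 hY2 f hf σ hσ c hc hcell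
  -- determinant zero
  have h4 : (((RE (x ^ κ) Y ×ˢ RE (x ^ κ) Y).filter
      (fun t => det t.1 t.2 = 0)).card : ℝ) ≤ Cb * (2 * Y) := by
    refine le_trans ?_ (tr10_card (R := x ^ κ) hY hball)
    have h5 : ((RE (x ^ κ) Y ×ˢ RE (x ^ κ) Y).filter
        (fun t => det t.1 t.2 = 0)).card ≤ (RE (x ^ κ) Y).card := by
      refine Finset.card_le_card_of_injOn Prod.fst ?_ ?_
      · intro t ht
        rw [Finset.mem_coe, Finset.mem_filter, Finset.mem_product] at ht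
        exact ht.1.1
      · intro t ht t' ht' htt
        rw [Finset.mem_coe, Finset.mem_filter, Finset.mem_product] at ht ht'
        have h6 := re_det_zero ht.1.1 ht.1.2 ht.2
        have h7 := re_det_zero ht'.1.1 ht'.1.2 ht'.2
        exact Prod.ext htt (by rw [← h6, ← h7, htt])
    exact_mod_cast h5
  -- small determinants
  have hd1 : δ₁ * (Y * x ^ β / x) ≤ Y := by
    have h5 : x ^ β ≤ x := by
      calc x ^ β ≤ x ^ (1 : ℝ) := Real.rpow_le_rpow_of_exponent_le hx1 hβ.le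
        _ = x := Real.rpow_one x
    have h6 : Y * x ^ β / x ≤ Y := by
      rw [div_le_iff₀ hx0]
      exact mul_le_mul_of_nonneg_left h5 hY0.le
    calc δ₁ * (Y * x ^ β / x) ≤ 1 * (Y * x ^ β / x) :=
          mul_le_mul_of_nonneg_right hδ₁1 (by positivity)
      _ = Y * x ^ β / x := one_mul _
      _ ≤ Y := h6
  have hd2 : x ^ (τ / 2) ≤ δ₁ * (Y * x ^ β / x) := by
    have h5 : x ^ τ = x ^ (τ / 2) * x ^ (τ / 2) := by
      rw [← Real.rpow_add hx0]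
      congr 1
      ring
    have h6 : 1 ≤ δ₁ * x ^ (τ / 2) := by
      rw [div_le_iff₀ hδ₁] at g2
      linarith
    calc x ^ (τ / 2) = 1 * x ^ (τ / 2) := (one_mul _).symm
      _ ≤ δ₁ * x ^ (τ / 2) * x ^ (τ / 2) :=
          mul_le_mul_of_nonneg_right h6 (Real.rpow_nonneg hx0.le _)
      _ = δ₁ * x ^ τ := by rw [h5]; ring
      _ ≤ _ := mul_le_mul_of_nonneg_left hD0' hδ₁.le
  have hd4 : ((1 : ℕ) : ℝ) ≤ (δ₁ * (Y * x ^ β / x)) ^ (1 / 8 : ℝ) := by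
    rw [Nat.cast_one]
    refine Real.one_le_rpow ?_ (by norm_num)
    exact (Real.one_le_rpow hx1 (half_pos hτ).le).trans hd2
  have h5 := hps x g1 Y hY1 hYx (δ₁ * (Y * x ^ β / x)) hd2 hd1 1 le_rfl hd4
  unfold NR at h5
  have hs1 : Real.sqrt ((1 : ℕ) : ℝ) = 1 := by rw [Nat.cast_one, Real.sqrt_one]
  rw [hs1, one_mul] at h5
  -- the final estimates
  have h6 : K * (C * Y * (δ₁ * (Y * x ^ β / x)) / Real.log x ^ 2) ≤
      ε / 3 * Y * x ^ (2 * β) / Real.log x ^ 2 := by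
    have h8 : K * (C * Y * (δ₁ * (Y * x ^ β / x)) / Real.log x ^ 2) =
        (8 * C * δ₁) * (Y * (x ^ β * x ^ β) / Real.log x ^ 2) := by
      rw [hK]
      field_simp
    have h9 : ε / 3 * Y * x ^ (2 * β) / Real.log x ^ 2 =
        (ε / 3) * (Y * (x ^ β * x ^ β) / Real.log x ^ 2) := by
      rw [hBB]
      field_simp
    rw [h8, h9]
    refine mul_le_mul_of_nonneg_right ?_ (by positivity)
    linarith
  have h7 : K * (Cb * (2 * Y)) ≤ ε / 3 * Y * x ^ (2 * β) / Real.log x ^ 2 := by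
    rw [le_div_iff₀ (by positivity), hBB]
    have h8 : K * (Cb * (2 * Y)) = 16 * Cb * x * x ^ β := by
      rw [hK]
      field_simp
      ring
    rw [h8]
    have h9 : 48 * Cb * (x * Real.log x ^ 2) ≤ ε * (Y * x ^ β) := by
      calc 48 * Cb * (x * Real.log x ^ 2) = x * (48 * Cb * Real.log x ^ 2) := by ring
        _ ≤ x * (ε * x ^ τ) := mul_le_mul_of_nonneg_left hlogsq hx0.le
        _ = ε * (x * x ^ τ) := by ring
        _ ≤ ε * (Y * x ^ β) := mul_le_mul_of_nonneg_left hD0 hε.le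
    have h10 := mul_le_mul_of_nonneg_right h9 hB0.le
    linarith
  have h8 : K * (((RE (x ^ κ) Y ×ˢ RE (x ^ κ) Y).filter
      (fun t => det t.1 t.2 = 0)).card : ℝ) ≤ K * (Cb * (2 * Y)) :=
    mul_le_mul_of_nonneg_left h4 hK0
  have h9 := mul_le_mul_of_nonneg_left h5 hK0
  have h10 : ε * Y * x ^ (2 * β) / Real.log x ^ 2 =
      ε / 3 * Y * x ^ (2 * β) / Real.log x ^ 2 + ε / 3 * Y * x ^ (2 * β) / Real.log x ^ 2 +
        ε / 3 * Y * x ^ (2 * β) / Real.log x ^ 2 := by ring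
  rw [h10]
  refine h1.trans (h2.trans (add_le_add (add_le_add ?_ ?_) ?_))
  · exact h8.trans h7
  · exact h9.trans h6
  · exact h3



end Pool.Agent.TF

namespace Pool.Agent.TF

theorem tt_bound_r : type_of% @tt_bound_r_pr := @tt_bound_r_pr

end Pool.Agent.TF
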