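import Mathlib
import Pool.Agent.Lib_helper18.TR.Defs
import Pool.Agent.Lib_helper10.T2F.BAS
import Pool.Agent.Lib_helper10.T2F.PEL
import Pool.Agent.Lib_helper10.T2F.CNT
import Pool.Agent.Lib_helper10.T2F.SLW
import Pool.Agent.Lib_helper10.T2F.SLG
import Pool.Agent.Lib_helper10.T2F.MER
import Pool.Agent.Lib_helper10.T2F.DSR
import Pool.Agent.Lib_helper73.Var.LS
import Pool.Agent.Lib_helper18.TRF.I10

/-!
# Thin families with rough elements, block I11: the type II estimate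
-/

namespace Pool.Agent.TF

open Pool.Agent.T2

theorem i11r_SR_sq (f : ℝ → ℝ) (a h : G → ℝ) (hh : ∀ z, |h z| ≤ 1) (σ : ℤ) (x R Y : ℝ)
    (c : ℤ → ℝ) :
    SR f a h σ x R Y c ^ 2 ≤ ((Bl (2 * x ^ 2 / Y)).card : ℝ) * TTR f a σ x R Y c := by
  have h1 : SR f a h σ x R Y c = ∑ z ∈ Bl (2 * x ^ 2 / Y), h z * ∑ u ∈ RE R Y,
      a u * (c (σ * (u * z).im) * f (((u * z).re : ℝ) / x)) := by
    unfold SR
    simp only [Finset.mul_sum]
    rw [Finset.sum_comm]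
    refine Finset.sum_congr rfl fun z _ => Finset.sum_congr rfl fun p _ => ?_
    ring
  rw [h1]
  refine (Finset.sum_mul_sq_le_sq_mul_sq _ _ _).trans ?_
  unfold TTR
  refine mul_le_mul_of_nonneg_right ?_ (Finset.sum_nonneg fun _ _ => sq_nonneg _)
  calc ∑ z ∈ Bl (2 * x ^ 2 / Y), h z ^ 2 ≤ ∑ z ∈ Bl (2 * x ^ 2 / Y), (1 : ℝ) := by
        refine Finset.sum_le_sum fun z _ => ?_
        have := hh z
        rw [← sq_abs]
        exact pow_le_one₀ (abs_nonneg _) this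
    _ = ((Bl (2 * x ^ 2 / Y)).card : ℝ) := by rw [Finset.sum_const, nsmul_eq_mul, mul_one]

theorem type_two_r_pr (β τ δ Λ κ ε : ℝ) (hβ : β < 1) (hτ : 0 < τ) (hτβ : 2 * τ < β) (hδ : 0 < δ)
    (hδ' : δ ≤ 1) (hΛ : 0 ≤ Λ) (hκ : 0 < κ) (hε : 0 < ε) : ∃ (L M : ℕ) (x₀ : ℝ),
    1 ≤ L ∧ 1 ≤ M ∧ ∀ x : ℝ, x₀ ≤ x → ∀ Y : ℝ, x ^ (1 - β + τ) ≤ Y → Y ≤ x ^ (1 - τ) →
    ∀ f : ℝ → ℝ, Cut δ Λ f → ∀ a : G → ℝ, (∀ u, |a u| ≤ 1) → ∀ h : G → ℝ, (∀ z, |h z| ≤ 1) →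
    ∀ σ : ℤ, (σ = 1 ∨ σ = -1) →
    ∀ c : ℤ → ℝ, Coef (x ^ β) c → (∀ (i : ℕ) (r : ℤ), ∑ b ∈ Cell L M (x ^ β) i r, c b = 0) →
      |SR f a h σ x (x ^ κ) Y c| ≤ ε * x ^ (1 + β) / Real.log x := by
  obtain ⟨K, hK, hball⟩ := ball_le
  have hK0 : 0 < K := by linarith
  obtain ⟨L, M, x₀, hL, hM, H⟩ := tt_bound_r β τ δ Λ κ (ε ^ 2 / (2 * K)) hβ hτ hτβ hδ hδ' hΛ hκ
    (by positivity)
  refine ⟨L, M, max x₀ 3, hL, hM, ?_⟩
  intro x hx Y hY1 hY2 f hf a ha h hh σ hσ c hc hcell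
  have hx3 : 3 ≤ x := (le_max_right _ _).trans hx
  have hx0 : 0 < x := by linarith
  have hY0 : 0 < Y := lt_of_lt_of_le (Real.rpow_pos_of_pos hx0 _) hY1
  have hlog : 0 < Real.log x := Real.log_pos (by linarith)
  have hT := H x ((le_max_left _ _).trans hx) Y hY1 hY2 f hf a ha σ hσ c hc hcell
  have hB := hball (2 * x ^ 2 / Y) (by positivity)
  have hS := i11r_SR_sq f a h hh σ x (x ^ κ) Y c
  have hT0 : 0 ≤ TTR f a σ x (x ^ κ) Y c := by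
    unfold TTR
    exact Finset.sum_nonneg fun _ _ => sq_nonneg _
  have hpow : x ^ (1 + β) * x ^ (1 + β) = x ^ 2 * x ^ (2 * β) := by
    rw [← Real.rpow_natCast x 2, ← Real.rpow_add hx0, ← Real.rpow_add hx0]
    congr 1
    push_cast
    ring
  have key : SR f a h σ x (x ^ κ) Y c ^ 2 ≤ (ε * x ^ (1 + β) / Real.log x) ^ 2 := by
    calc SR f a h σ x (x ^ κ) Y c ^ 2
        ≤ ((Bl (2 * x ^ 2 / Y)).card : ℝ) * TTR f a σ x (x ^ κ) Y c := hS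
      _ ≤ (K * (2 * x ^ 2 / Y)) * (ε ^ 2 / (2 * K) * Y * x ^ (2 * β) / Real.log x ^ 2) :=
          mul_le_mul hB hT hT0 (by positivity)
      _ = ε ^ 2 * (x ^ 2 * x ^ (2 * β)) / Real.log x ^ 2 := by
          field_simp
      _ = (ε * x ^ (1 + β) / Real.log x) ^ 2 := by
          rw [← hpow]
          ring
  exact abs_le_of_sq_le_sq key (by positivity)


end Pool.Agent.TF

namespace Pool.Agent.TF

theorem type_two_r : type_of% @type_two_r_pr := @type_two_r_pr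

end Pool.Agent.TF
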