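import Pool.Agent.Lib_helper97.TR.Defs
import Pool.Agent.Lib_helper18.TRF.P12
import Pool.Agent.Lib_helper18.TRF.P13
import Pool.Agent.Lib_helper18.TRF.I11

/-!
# TR, parts P' and I': the interface (helper18)
-/

set_option autoImplicit false

namespace Pool.Agent.TR

open Pool.Agent.T2 Pool.Agent.TF

theorem br_Ru (R Y : ℝ) : Ru R Y = TF.RE R Y := by
  classical
  unfold Ru TF.RE PB
  ext u
  simp only [Finset.mem_filter]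
  constructor
  · rintro ⟨⟨h1, h2⟩, h3, h4, h5, h6⟩
    exact ⟨h1, h5, h2, h3, h4, h6.2⟩
  · rintro ⟨h1, h5, h2, h3, h4, h6⟩
    refine ⟨⟨h1, h2⟩, h3, h4, h5, ?_, h6⟩
    intro h0
    unfold nn at h0
    rw [Int.natAbs_eq_zero, Zsqrtd.norm_def] at h0
    nlinarith [mul_self_nonneg u.re, mul_pos h3 h3]

theorem type_twoR_pr (β τ ρ δ Λ ε : ℝ) (hβ : β < 1) (hτ : 0 < τ) (hτβ : 2 * τ < β) (hρ : 0 < ρ)
    (hδ : 0 < δ) (hδ' : δ ≤ 1) (hΛ : 0 ≤ Λ) (hε : 0 < ε) : ∃ (L M : ℕ) (x₀ : ℝ),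
    1 ≤ L ∧ 1 ≤ M ∧ ∀ x : ℝ, x₀ ≤ x → ∀ Y : ℝ, x ^ (1 - β + τ) ≤ Y → Y ≤ x ^ (1 - τ) →
    ∀ f : ℝ → ℝ, Cut δ Λ f → ∀ α γ : G → ℝ, (∀ u, |α u| ≤ 1) → (∀ z, |γ z| ≤ 1) →
    ∀ σ : ℤ, (σ = 1 ∨ σ = -1) → ∀ c : ℤ → ℝ, Coef (x ^ β) c →
    (∀ (i : ℕ) (r : ℤ), ∑ b ∈ Cell L M (x ^ β) i r, c b = 0) →
      |SB f α γ σ (x ^ ρ) x Y c| ≤ ε * x ^ (1 + β) / Real.log x := by
  obtain ⟨L, M, x₀, hL, hM, h⟩ := TF.type_two_r β τ δ Λ ρ ε hβ hτ hτβ hδ hδ' hΛ hρ hε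
  refine ⟨L, M, x₀, hL, hM, fun x hx Y hY1 hY2 f hf α γ hα hγ σ hσ c hc hcell => ?_⟩
  have h1 := h x hx Y hY1 hY2 f hf α hα γ hγ σ hσ c hc hcell
  have h2 : SB f α γ σ (x ^ ρ) x Y c = TF.SR f α γ σ x (x ^ ρ) Y c := by
    unfold SB TF.SR
    rw [br_Ru]
    refine Finset.sum_congr rfl fun u _ => ?_
    congr 1
    refine Finset.sum_congr rfl fun z _ => ?_
    ring
  rw [h2]
  exact h1

theorem br_Np (R Y D : ℝ) (q : ℕ) : NpR R Y D q = TF.NR R Y D q := by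
  unfold NpR TF.NR
  rw [br_Ru]

theorem pair_sieveR_pr (ε ρ : ℝ) (hε : 0 < ε) (hρ : 0 < ρ) : ∃ C Y₀ : ℝ, 1 ≤ C ∧ ∀ Y : ℝ, Y₀ ≤ Y →
    ∀ D R : ℝ, Y ^ ε ≤ D → D ≤ Y → Y ^ ρ ≤ R → ∀ q : ℕ, 1 ≤ q → (q : ℝ) ≤ D ^ (1 / 8 : ℝ) →
      NpR R Y D q ≤ C * Y * D / (Real.sqrt q * Real.log Y ^ 2) := by
  obtain ⟨C, Y₀, hC, h⟩ := TF.pair_sieve_r (min ε ρ) (lt_min hε hρ)
  refine ⟨C, max 1 Y₀, hC, fun Y hY D R hD1 hD2 hR q hq hqD => ?_⟩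
  have hY1 : (1 : ℝ) ≤ Y := (le_max_left _ _).trans hY
  have hD : Y ^ (min ε ρ) ≤ D :=
    (Real.rpow_le_rpow_of_exponent_le hY1 (min_le_left _ _)).trans hD1
  have hR' : Y ^ (min ε ρ) ≤ R :=
    (Real.rpow_le_rpow_of_exponent_le hY1 (min_le_right _ _)).trans hR
  have h1 := h Y ((le_max_right _ _).trans hY) D hD hD2 q hq hqD
  refine le_trans ?_ h1
  rw [br_Np]
  unfold TF.NR
  apply Nat.cast_le.mpr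
  apply Finset.card_le_card
  intro t ht
  rw [Finset.mem_filter, Finset.mem_product] at ht ⊢
  exact ⟨⟨TF.re_anti hR' ht.1.1, TF.re_anti hR' ht.1.2⟩, ht.2⟩

theorem type_twoR : type_of% @type_twoR_pr := @type_twoR_pr
theorem pair_sieveR : type_of% @pair_sieveR_pr := @pair_sieveR_pr

end Pool.Agent.TR
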